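import Pool.Agent.V1193.FM.H
import Pool.Agent.H447R2.ML.P7

set_option autoImplicit false

/-! Curves of amplitudes. -/

namespace Pool.Agent.V1193.FM

open Finset Filter Topology MeasureTheory
open Pool.Agent.H305R2 (NN roughPart measurable_NN ff ff_nonneg ff_le_one integrableOn_ff
  mem_Ioc_log)
open Pool.Agent.H447R2.ML (Loc)

/-- the set of `x > 0` for which `m` is a prime index -/
def SB (B : ℝ → ℝ) (m : ℕ) : Set ℝ := {x | 0 < x ∧ (WW (Real.exp x) (Real.exp (B x)) m).Prime}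

lemma meas_SB {B : ℝ → ℝ} (hB : ContinuousOn B (Set.Ioi 0)) (m : ℕ) : MeasurableSet (SB B m) := by
  classical
  have hm : Measurable ((Set.Ioi (0 : ℝ)).piecewise B 0) :=
    hB.measurable_piecewise continuousOn_const measurableSet_Ioi
  have h : Measurable fun x : ℝ => ⌊Real.exp ((Set.Ioi (0 : ℝ)).piecewise B 0 x) *
      Real.exp x ^ (2 ^ m)⌋₊ :=
    Nat.measurable_floor.comp (hm.exp.mul (Real.measurable_exp.pow_const _))
  have h2 := h (MeasurableSet.of_discrete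
    (s := {n : ℕ | (roughPart (2 ^ (m + 1)) (n + 1)).Prime}))
  have e : SB B m = Set.Ioi (0 : ℝ) ∩ (fun x : ℝ => ⌊Real.exp ((Set.Ioi (0 : ℝ)).piecewise B 0 x) *
      Real.exp x ^ (2 ^ m)⌋₊) ⁻¹' {n : ℕ | (roughPart (2 ^ (m + 1)) (n + 1)).Prime} := by
    ext x
    constructor
    · rintro ⟨h3, h4⟩
      refine ⟨h3, ?_⟩
      show (roughPart (2 ^ (m + 1)) (⌊Real.exp ((Set.Ioi (0 : ℝ)).piecewise B 0 x) *
        Real.exp x ^ (2 ^ m)⌋₊ + 1)).Prime
      rw [Set.piecewise_eq_of_mem _ _ _ (show x ∈ Set.Ioi (0 : ℝ) from h3)]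
      exact h4
    · rintro ⟨h3, h4⟩
      have h5 : (roughPart (2 ^ (m + 1)) (⌊Real.exp ((Set.Ioi (0 : ℝ)).piecewise B 0 x) *
        Real.exp x ^ (2 ^ m)⌋₊ + 1)).Prime := h4
      rw [Set.piecewise_eq_of_mem _ _ _ h3] at h5
      exact ⟨h3, h5⟩
  rw [e]
  exact measurableSet_Ioi.inter h2

/-- the phase functions -/
noncomputable def Y (B : ℝ → ℝ) (p : ℕ) (τ : ℝ) : ℝ := ph (B (2 * τ) + p * τ)

/-- their derivatives -/
noncomputable def Y' (B : ℝ → ℝ) (p : ℕ) (τ : ℝ) : ℝ :=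
  Real.exp (B (2 * τ) + p * τ) / (Real.exp (B (2 * τ) + p * τ) + 1) * (deriv B (2 * τ) * 2 + p)

lemma loc_curve {B : ℝ → ℝ} (hB : ContDiffOn ℝ 1 B (Set.Ioi 0)) {a0 : ℝ} (ha0 : 0 < a0) (a1 : ℝ) :
    ∃ D : ℝ, 0 ≤ D ∧ ∀ p : ℕ, Loc a0 a1 D p (Y B p) (Y' B p) := by
  have hsub : Set.Icc (2 * a0) (2 * a1) ⊆ Set.Ioi (0 : ℝ) := fun x hx => by
    have : 0 < 2 * a0 := by linarith
    exact lt_of_lt_of_le this hx.1
  have hB' : ContinuousOn (deriv B) (Set.Ioi 0) := hB.continuousOn_deriv_of_isOpen isOpen_Ioi le_rfl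
  obtain ⟨D1, hD1⟩ := isCompact_Icc.exists_bound_of_continuousOn (hB.continuousOn.mono hsub)
  obtain ⟨D2, hD2⟩ := isCompact_Icc.exists_bound_of_continuousOn (hB'.mono hsub)
  simp only [Real.norm_eq_abs] at hD1 hD2
  have hE : 0 ≤ Real.exp |D1| / a0 := by positivity
  have hE1 := (Real.exp_pos |D1|).le
  refine ⟨|D1| + 2 * |D2| + Real.exp |D1| + Real.exp |D1| / a0, by positivity, fun p => ?_⟩
  have hmem : ∀ t ∈ Set.Icc a0 a1, 2 * t ∈ Set.Icc (2 * a0) (2 * a1) := fun t ht =>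
    ⟨by linarith [ht.1], by linarith [ht.2]⟩
  have b1 : ∀ t ∈ Set.Icc a0 a1, |B (2 * t)| ≤ |D1| := fun t ht =>
    (hD1 _ (hmem t ht)).trans (le_abs_self _)
  have b2 : ∀ t ∈ Set.Icc a0 a1, |deriv B (2 * t)| ≤ |D2| := fun t ht =>
    (hD2 _ (hmem t ht)).trans (le_abs_self _)
  have hdec : ∀ t ∈ Set.Icc a0 a1, Real.exp (-(B (2 * t) + p * t)) ≤ Real.exp |D1| := by
    intro t ht
    refine Real.exp_le_exp.2 ?_
    have h1 : 0 ≤ (p : ℝ) * t := mul_nonneg (Nat.cast_nonneg p) (ha0.le.trans ht.1)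
    have h2 := (abs_le.1 (b1 t ht)).1
    linarith
  constructor
  · intro t ht
    have h1 := ph_ge (B (2 * t) + p * t)
    have h2 := ph_sub (B (2 * t) + p * t)
    have h3 := hdec t ht
    have h4 := abs_le.1 (b1 t ht)
    have h5 := abs_nonneg D2
    unfold Y
    rw [abs_le]
    constructor
    · linarith [h4.1]
    · linarith [h4.2]
  · intro t ht
    have h0 : (2 * t) ∈ Set.Ioi (0 : ℝ) := hsub (hmem t ht)
    have hd : HasDerivAt B (deriv B (2 * t)) (2 * t) :=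
      ((hB.differentiableOn (by norm_num)).differentiableAt (isOpen_Ioi.mem_nhds h0)).hasDerivAt
    have h1 : HasDerivAt (fun τ : ℝ => B (2 * τ)) (deriv B (2 * t) * 2) t := by
      have h2 : HasDerivAt (fun τ : ℝ => 2 * τ) 2 t := by
        simpa using (hasDerivAt_id t).const_mul (2 : ℝ)
      exact hd.comp t h2
    have h3 : HasDerivAt (fun τ : ℝ => (p : ℝ) * τ) p t := by
      simpa using (hasDerivAt_id t).const_mul (p : ℝ)
    exact (ph_deriv (B (2 * t) + p * t)).comp t (h1.add h3)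
  · intro t ht
    have hE0 := Real.exp_pos (B (2 * t) + p * t)
    set w := B (2 * t) + p * t with hw
    have e : Y' B p t - p = Real.exp w / (Real.exp w + 1) * (deriv B (2 * t) * 2) +
        -(p / (Real.exp w + 1)) := by
      unfold Y'
      rw [← hw]
      field_simp
      ring
    rw [e]
    have ht0 : 0 < t := lt_of_lt_of_le ha0 ht.1
    have h1 : (p : ℝ) / (Real.exp w + 1) ≤ Real.exp |D1| / a0 := by
      rw [div_le_div_iff₀ (by positivity) ha0]
      have h2 : (p : ℝ) * a0 ≤ Real.exp (p * t) := by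
        have h3 := Real.add_one_le_exp ((p : ℝ) * t)
        have h4 : (p : ℝ) * a0 ≤ p * t := mul_le_mul_of_nonneg_left ht.1 (Nat.cast_nonneg p)
        linarith
      have h5 : Real.exp (p * t) ≤ Real.exp |D1| * Real.exp w := by
        rw [← Real.exp_add]
        refine Real.exp_le_exp.2 ?_
        have := (abs_le.1 (b1 t ht)).1
        rw [hw]
        linarith
      calc (p : ℝ) * a0 ≤ Real.exp |D1| * Real.exp w := h2.trans h5
        _ ≤ _ := by
          rw [mul_add]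
          linarith
    have h6 : |Real.exp w / (Real.exp w + 1) * (deriv B (2 * t) * 2)| ≤ 2 * |D2| := by
      rw [abs_mul, abs_of_nonneg (show 0 ≤ Real.exp w / (Real.exp w + 1) by positivity), abs_mul,
        abs_of_pos (show (0 : ℝ) < 2 by norm_num)]
      have h7 : Real.exp w / (Real.exp w + 1) ≤ 1 := by
        rw [div_le_one (by positivity)]; linarith
      have h8 := b2 t ht
      have h9 := abs_nonneg (deriv B (2 * t))
      calc _ ≤ 1 * (|deriv B (2 * t)| * 2) := mul_le_mul_of_nonneg_right h7 (by positivity)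
        _ ≤ _ := by linarith
    have h10 : |-((p : ℝ) / (Real.exp w + 1))| ≤ Real.exp |D1| / a0 := by
      rw [abs_neg, abs_of_nonneg (by positivity)]
      exact h1
    have h11 := abs_add_le (Real.exp w / (Real.exp w + 1) * (deriv B (2 * t) * 2))
      (-((p : ℝ) / (Real.exp w + 1)))
    have h12 := abs_nonneg D1
    linarith

/-- for large `m` the exceptional set is null -/
lemma ae_curve {B : ℝ → ℝ} (hB : ContDiffOn ℝ 1 B (Set.Ioi 0)) {u : ℝ} (hu : 0 < u) (v : ℝ) :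
    ∃ m0 : ℕ, ∀ m ≥ m0, ∀ᵐ x : ℝ, x ∈ Set.Ioc u v → ∀ n : ℕ, B x + 2 ^ m * x ≠ Real.log n := by
  obtain ⟨D, hD0, hloc⟩ := loc_curve hB (show 0 < u / 2 by positivity) (v / 2)
  have h1 : ∀ᶠ m : ℕ in atTop, 3 * D < ((2 ^ (m + 1) : ℕ) : ℝ) :=
    (tendsto_natCast_atTop_atTop.comp tendsto_P).eventually_gt_atTop _
  obtain ⟨m0, hm0⟩ := eventually_atTop.1 h1
  refine ⟨m0, fun m hm => ?_⟩
  have hstr := (hloc (2 ^ (m + 1))).strict (hm0 m hm) hD0
  have h2 : ∀ n : ℕ, ∀ᵐ x : ℝ, ¬ (x ∈ Set.Ioc u v ∧ B x + 2 ^ m * x = Real.log n) := by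
    intro n
    rw [ae_iff]
    simp only [not_not]
    refine Set.Subsingleton.measure_zero ?_ _
    rintro x ⟨hx, hx'⟩ z ⟨hz, hz'⟩
    have e : ∀ x : ℝ, Y B (2 ^ (m + 1)) (x / 2) = ph (B x + 2 ^ m * x) := by
      intro x
      unfold Y
      rw [show 2 * (x / 2) = x by ring]
      congr 2
      push_cast
      rw [pow_succ]
      ring
    have h3 : Y B (2 ^ (m + 1)) (x / 2) = Y B (2 ^ (m + 1)) (z / 2) := by
      rw [e, e, hx', hz']
    have h4 := hstr.injOn ⟨by linarith [hx.1], by linarith [hx.2]⟩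
      ⟨by linarith [hz.1], by linarith [hz.2]⟩ h3
    linarith
  filter_upwards [ae_all_iff.2 h2] with x hx hxI n hn
  exact hx n ⟨hxI, hn⟩

/-- mass of one index -/
lemma mu_curve {B : ℝ → ℝ} (hB : ContDiffOn ℝ 1 B (Set.Ioi 0)) {u : ℝ} (hu : 0 < u) {v : ℝ}
    (huv : u ≤ v) : ∃ m0 : ℕ, ∀ m ≥ m0,
    ∫ x in Set.Ioc u v, (SB B m).indicator (fun _ => (1 : ℝ)) x =
      2 * ∫ τ in Set.Ioc (u / 2) (v / 2), ff (2 ^ (m + 1)) (Y B (2 ^ (m + 1)) τ) := by
  obtain ⟨m0, hm0⟩ := ae_curve hB hu v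
  refine ⟨m0, fun m hm => ?_⟩
  have h3 : ∫ x in Set.Ioc u v, (SB B m).indicator (fun _ => (1 : ℝ)) x =
      ∫ x in Set.Ioc u v, (fun τ => ff (2 ^ (m + 1)) (Y B (2 ^ (m + 1)) τ)) (x / 2) := by
    refine setIntegral_congr_ae measurableSet_Ioc ?_
    filter_upwards [hm0 m hm] with x hx hxI
    have hx0 : 0 < x := hu.trans hxI.1
    have e := ind_eq (x := x) (y := B x) (m := m) (hx hxI)
    have e2 : Y B (2 ^ (m + 1)) (x / 2) = ph (B x + 2 ^ m * x) := by
      unfold Y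
      rw [show 2 * (x / 2) = x by ring]
      congr 2
      push_cast
      rw [pow_succ]
      ring
    rw [e2, ← g_eq, ← e]
    by_cases a : (WW (Real.exp x) (Real.exp (B x)) m).Prime
    · rw [Set.indicator_of_mem (show x ∈ SB B m from ⟨hx0, a⟩), if_pos a]
    · rw [Set.indicator_of_notMem (show x ∉ SB B m from fun h => a h.2), if_neg a]
  rw [h3, ← intervalIntegral.integral_of_le huv, ← intervalIntegral.integral_of_le (by linarith),
    intervalIntegral.integral_comp_div (fun τ => ff (2 ^ (m + 1)) (Y B (2 ^ (m + 1)) τ))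
      two_ne_zero, smul_eq_mul]

theorem law_curve {B : ℝ → ℝ} (hB : ContDiffOn ℝ 1 B (Set.Ioi 0)) {u v : ℝ} (hu : 0 < u)
    (huv : u < v) :
    Tendsto (fun m : ℕ => (2 ^ m / ((m : ℝ) + 1)) *
      ∫ x in Set.Ioc u v, (SB B m).indicator (fun _ => (1 : ℝ)) x) atTop
      (𝓝 (Real.exp Real.eulerMascheroniConstant * Real.log 2 * (Real.log v - Real.log u))) := by
  have hu2 : 0 < u / 2 := by positivity
  obtain ⟨D, hD0, hloc⟩ := loc_curve hB hu2 (v / 2)
  obtain ⟨m0, hm0⟩ := mu_curve hB hu huv.le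
  have h1 := Pool.Agent.H447R2.ML.mean_family hu2 hD0 (y := Y B) (y' := Y' B)
    (Eventually.of_forall hloc) le_rfl (show u / 2 < v / 2 by linarith) le_rfl
  have h2 := (h1.comp tendsto_P).const_mul (Real.log 2)
  have e1 : Real.log 2 * (Real.exp Real.eulerMascheroniConstant *
      (Real.log (v / 2) - Real.log (u / 2))) =
      Real.exp Real.eulerMascheroniConstant * Real.log 2 * (Real.log v - Real.log u) := by
    rw [Real.log_div (by linarith) two_ne_zero, Real.log_div hu.ne' two_ne_zero]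
    ring
  rw [e1] at h2
  refine h2.congr' ?_
  filter_upwards [eventually_ge_atTop m0] with m hm
  rw [hm0 m hm]
  simp only [Function.comp]
  have hl : Real.log 2 ≠ 0 := (Real.log_pos (by norm_num)).ne'
  push_cast
  rw [Real.log_pow, pow_succ]
  push_cast
  field_simp
  ring

/-- summability from the law -/
lemma summable_of_law {μ : ℕ → ℝ} {L : ℝ} (h0 : ∀ m, 0 ≤ μ m)
    (h : Tendsto (fun m : ℕ => (2 ^ m / ((m : ℝ) + 1)) * μ m) atTop (𝓝 L)) : Summable μ := by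
  obtain ⟨B, hB⟩ := h.bddAbove_range
  refine Summable.of_nonneg_of_le h0 (fun m => ?_) (summable_base.mul_left B)
  have h2 : (2 ^ m / ((m : ℝ) + 1)) * μ m ≤ B := hB ⟨m, rfl⟩
  have h3 : (0 : ℝ) < 2 ^ m / ((m : ℝ) + 1) := by positivity
  have h1 : B * (((m : ℝ) + 1) / 2 ^ m) = B / (2 ^ m / ((m : ℝ) + 1)) := by
    field_simp
  rw [h1, le_div_iff₀ h3, mul_comm]
  exact h2

theorem summable_curve {B : ℝ → ℝ} (hB : ContDiffOn ℝ 1 B (Set.Ioi 0)) {u v : ℝ} (hu : 0 < u)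
    (huv : u < v) :
    Summable fun m => ∫ x in Set.Ioc u v, (SB B m).indicator (fun _ => (1 : ℝ)) x :=
  summable_of_law (fun m => by
    rw [ind_real (meas_SB hB.continuousOn m)]; exact measureReal_nonneg) (law_curve hB hu huv)

theorem pair_curve {B : ℝ → ℝ} (hB : ContDiffOn ℝ 1 B (Set.Ioi 0)) {u v : ℝ} (hu : 0 < u)
    (huv : u ≤ v) : ∃ K : ℝ, 0 ≤ K ∧ ∃ m0 : ℕ,
    ∀ m ≥ m0, ∀ n > m, ∫ x in Set.Ioc u v,
      (SB B m ∩ SB B n).indicator (fun _ => (1 : ℝ)) x ≤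
      K * (((m : ℝ) + 1) / 2 ^ m) * (((n : ℝ) + 1) / 2 ^ n) := by
  set a0 := u / 4 with ha0d
  have ha0 : 0 < a0 := by positivity
  obtain ⟨D, hD0, hloc⟩ := loc_curve hB ha0 v
  obtain ⟨m1, hm1⟩ := ae_curve hB hu v
  obtain ⟨K, hK, P, hP⟩ := Pool.Agent.H447R2.ML.pair_bound (a0 := a0) (a1 := v)
    (D := D) (b0 := u / 2) (b1 := v / 2) ha0 hD0 (by rw [ha0d]; linarith) (by linarith)
  have hlog2 : ∀ᶠ q : ℕ in atTop, (Real.log q) ^ 2 ≤ a0 / 128 * q := by
    have h := (Real.isLittleO_pow_log_id_atTop (n := 2)).bound (show 0 < a0 / 128 by positivity)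
    have h' := tendsto_natCast_atTop_atTop (R := ℝ) |>.eventually h
    filter_upwards [h'] with q hq
    simp only [id, norm_pow, Real.norm_eq_abs, sq_abs, Nat.abs_cast] at hq
    exact hq
  obtain ⟨P2, hP2⟩ := eventually_atTop.1 hlog2
  obtain ⟨m0, hm0⟩ := eventually_atTop.1 (tendsto_P.eventually_ge_atTop (max P P2))
  refine ⟨2 * (K * ((v / 2 - u / 2) + 1)), mul_nonneg (by norm_num) (mul_nonneg hK.le (by linarith)),
    max m0 m1, fun m hm n hn => ?_⟩
  have hpm := hm0 m ((le_max_left _ _).trans hm)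
  have hmn : (2 : ℝ) ^ m * 2 ≤ 2 ^ n := by
    rw [← pow_succ]
    exact pow_le_pow_right₀ (by norm_num) hn
  have hpq : 2 ^ (m + 1) < 2 ^ (n + 1) := Nat.pow_lt_pow_right (by norm_num) (by omega)
  have hq2 := hP2 (2 ^ (n + 1)) (by have := le_max_right P P2; omega)
  have hpos : (0 : ℝ) < 2 ^ m := by positivity
  have hposn : (0 : ℝ) < 2 ^ n := by positivity
  have e2 : ∀ (k : ℕ) (x : ℝ), Y B (2 ^ (k + 1)) (x / 2) = ph (B x + 2 ^ k * x) := by
    intro k x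
    unfold Y
    rw [show 2 * (x / 2) = x by ring]
    congr 2
    push_cast
    rw [pow_succ]
    ring
  -- change of variables
  have h1 : ∫ x in Set.Ioc u v, (SB B m ∩ SB B n).indicator (fun _ => (1 : ℝ)) x =
      2 * ∫ τ in Set.Ioc (u / 2) (v / 2),
        ff (2 ^ (m + 1)) (Y B (2 ^ (m + 1)) τ) * ff (2 ^ (n + 1)) (Y B (2 ^ (n + 1)) τ) := by
    have h3 : ∫ x in Set.Ioc u v, (SB B m ∩ SB B n).indicator (fun _ => (1 : ℝ)) x =
      ∫ x in Set.Ioc u v, (fun τ => ff (2 ^ (m + 1)) (Y B (2 ^ (m + 1)) τ) *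
        ff (2 ^ (n + 1)) (Y B (2 ^ (n + 1)) τ)) (x / 2) := by
      refine setIntegral_congr_ae measurableSet_Ioc ?_
      filter_upwards [hm1 m ((le_max_right _ _).trans hm),
        hm1 n (((le_max_right _ _).trans hm).trans (le_of_lt hn))] with x hx hx' hxI
      have hx0 : 0 < x := hu.trans hxI.1
      rw [ind_inter (x := x) (y := B x) (S := SB B m) (T := SB B n)
        ⟨fun h => h.2, fun h => ⟨hx0, h⟩⟩ ⟨fun h => h.2, fun h => ⟨hx0, h⟩⟩ (hx hxI) (hx' hxI),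
        g_eq, g_eq, e2, e2]
    rw [h3, ← intervalIntegral.integral_of_le huv, ← intervalIntegral.integral_of_le (by linarith),
      intervalIntegral.integral_comp_div (fun τ => ff (2 ^ (m + 1)) (Y B (2 ^ (m + 1)) τ) *
        ff (2 ^ (n + 1)) (Y B (2 ^ (n + 1)) τ)) two_ne_zero, smul_eq_mul]
  rw [h1]
  have hgap : 64 / a0 * (Real.log ((2 ^ (n + 1) : ℕ) : ℝ) *
      Real.log (Real.log ((2 ^ (n + 1) : ℕ) : ℝ))) ≤
      ((2 ^ (n + 1) : ℕ) : ℝ) - ((2 ^ (m + 1) : ℕ) : ℝ) := by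
    have hl0 : 0 < Real.log ((2 ^ (n + 1) : ℕ) : ℝ) := by
      refine Real.log_pos ?_
      push_cast
      exact one_lt_pow₀ (by norm_num) (by omega)
    have h7 := Real.log_le_sub_one_of_pos hl0
    have h8 : Real.log ((2 ^ (n + 1) : ℕ) : ℝ) * Real.log (Real.log ((2 ^ (n + 1) : ℕ) : ℝ)) ≤
        (Real.log ((2 ^ (n + 1) : ℕ) : ℝ)) ^ 2 := by
      rw [sq]; exact mul_le_mul_of_nonneg_left (by linarith) hl0.le
    have h9 : 64 / a0 * (Real.log ((2 ^ (n + 1) : ℕ) : ℝ) *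
      Real.log (Real.log ((2 ^ (n + 1) : ℕ) : ℝ))) ≤ 64 / a0 * (a0 / 128 * ((2 ^ (n + 1) : ℕ) : ℝ)) :=
      mul_le_mul_of_nonneg_left (h8.trans hq2) (by positivity)
    have h10 : 64 / a0 * (a0 / 128 * ((2 ^ (n + 1) : ℕ) : ℝ)) = ((2 ^ (n + 1) : ℕ) : ℝ) / 2 := by
      field_simp
      norm_num
    rw [h10] at h9
    push_cast at h9 ⊢
    rw [pow_succ, pow_succ] at *
    linarith
  have h4 := hP (2 ^ (m + 1)) (2 ^ (n + 1)) (by have := le_max_left P P2; omega) hpq _ _ _ _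
    (hloc (2 ^ (m + 1))) (hloc (2 ^ (n + 1))) hgap (u / 2) (v / 2) le_rfl
    (by linarith) le_rfl
  have h5 := log_pow_le m
  have h6 := log_pow_le n
  have h7 := log_pow_nonneg m
  have h8 := log_pow_nonneg n
  have h9 : (0 : ℝ) ≤ ((m : ℝ) + 1) / 2 ^ m := by positivity
  have h10 : (0 : ℝ) ≤ ((n : ℝ) + 1) / 2 ^ n := by positivity
  have h11 : 0 ≤ K * ((v / 2 - u / 2) + 1) := mul_nonneg hK.le (by linarith)
  have h1p : 1 / ((2 ^ (m + 1) : ℕ) : ℝ) ≤ 1 := by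
    rw [div_le_one (by positivity)]
    push_cast
    exact one_le_pow₀ (by norm_num)
  have h12 : Real.log ((2 ^ (n + 1) : ℕ) : ℝ) /
      (((2 ^ (n + 1) : ℕ) : ℝ) - ((2 ^ (m + 1) : ℕ) : ℝ)) ≤ ((n : ℝ) + 1) / 2 ^ n := by
    have h13 : ((2 ^ (n + 1) : ℕ) : ℝ) / 2 ≤
        ((2 ^ (n + 1) : ℕ) : ℝ) - ((2 ^ (m + 1) : ℕ) : ℝ) := by
      push_cast
      rw [pow_succ, pow_succ]
      linarith
    have h14 : Real.log ((2 ^ (n + 1) : ℕ) : ℝ) /
      (((2 ^ (n + 1) : ℕ) : ℝ) - ((2 ^ (m + 1) : ℕ) : ℝ)) ≤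
        Real.log ((2 ^ (n + 1) : ℕ) : ℝ) / (((2 ^ (n + 1) : ℕ) : ℝ) / 2) := by
      refine div_le_div_of_nonneg_left (Real.log_nonneg ?_) (by positivity) h13
      push_cast
      exact one_le_pow₀ (by norm_num)
    have h15 : Real.log ((2 ^ (n + 1) : ℕ) : ℝ) / (((2 ^ (n + 1) : ℕ) : ℝ) / 2) =
        2 * (Real.log ((2 ^ (n + 1) : ℕ) : ℝ) / ((2 ^ (n + 1) : ℕ) : ℝ)) := by
      field_simp
    linarith
  have h16 : 0 ≤ Real.log ((2 ^ (n + 1) : ℕ) : ℝ) /
      (((2 ^ (n + 1) : ℕ) : ℝ) - ((2 ^ (m + 1) : ℕ) : ℝ)) := by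
    refine div_nonneg (Real.log_nonneg ?_) ?_
    · push_cast
      exact one_le_pow₀ (by norm_num)
    · have : ((2 ^ (m + 1) : ℕ) : ℝ) < ((2 ^ (n + 1) : ℕ) : ℝ) := by exact_mod_cast hpq
      linarith
  have h17 : K * (v / 2 - u / 2 + 1 / ((2 ^ (m + 1) : ℕ) : ℝ)) *
      (Real.log ((2 ^ (m + 1) : ℕ) : ℝ) / ((2 ^ (m + 1) : ℕ) : ℝ)) *
      (Real.log ((2 ^ (n + 1) : ℕ) : ℝ) /
        (((2 ^ (n + 1) : ℕ) : ℝ) - ((2 ^ (m + 1) : ℕ) : ℝ))) ≤
      K * (v / 2 - u / 2 + 1) * (((m : ℝ) + 1) / 2 ^ m) * (((n : ℝ) + 1) / 2 ^ n) := by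
    refine mul_le_mul (mul_le_mul (mul_le_mul_of_nonneg_left (by linarith) hK.le) (by linarith) h7
      h11) h12 h16 (mul_nonneg h11 h9)
  calc _ ≤ 2 * (K * (v / 2 - u / 2 + 1) * (((m : ℝ) + 1) / 2 ^ m) * (((n : ℝ) + 1) / 2 ^ n)) :=
        mul_le_mul_of_nonneg_left (h4.trans h17) (by norm_num)
    _ = _ := by ring

/-! ### the curve in the original coordinates -/

theorem curve_B {A : ℝ → ℝ} (hA : ContDiffOn ℝ 1 A (Set.Ioi 1)) (hpos : ∀ α : ℝ, 1 < α → 0 < A α) :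
    ContDiffOn ℝ 1 (fun x => Real.log (A (Real.exp x))) (Set.Ioi 0) := by
  have h1 : ContDiffOn ℝ 1 (fun x => A (Real.exp x)) (Set.Ioi 0) :=
    hA.comp Real.contDiff_exp.contDiffOn fun x hx => Real.one_lt_exp_iff.2 hx
  exact h1.log fun x hx => (hpos _ (Real.one_lt_exp_iff.2 hx)).ne'

theorem final_curve {A : ℝ → ℝ} (hA : ContDiffOn ℝ 1 A (Set.Ioi 1))
    (hpos : ∀ α : ℝ, 1 < α → 0 < A α) {u v : ℝ} (hu : 0 < u) (huv : u < v) :
    Tendsto (fun m : ℕ => (2 ^ m / ((m : ℝ) + 1)) *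
      volume.real {x ∈ Set.Ioc u v | m ∈ Pr (Real.exp x) (A (Real.exp x))}) atTop
      (𝓝 (Real.exp Real.eulerMascheroniConstant * Real.log 2 * (Real.log v - Real.log u))) ∧
    Tendsto (fun m : ℕ => (2 ^ m / ((m : ℝ) + 1)) *
      volume.real {x ∈ Set.Ioc u v | IsGreatest (Pr (Real.exp x) (A (Real.exp x))) m}) atTop
      (𝓝 (Real.exp Real.eulerMascheroniConstant * Real.log 2 * (Real.log v - Real.log u))) ∧
    Tendsto (fun m : ℕ => (2 ^ m / ((m : ℝ) + 1)) *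
      volume.real {x ∈ Set.Ioc u v | ∃ k ∈ Pr (Real.exp x) (A (Real.exp x)), m ≤ k}) atTop
      (𝓝 (2 * (Real.exp Real.eulerMascheroniConstant * Real.log 2 *
        (Real.log v - Real.log u)))) ∧
    Tendsto (fun m : ℕ => (2 ^ m / ((m : ℝ) + 1)) *
      ∫ x in Set.Ioc u v, ((Pr (Real.exp x) (A (Real.exp x)) ∩ Set.Ici m).ncard : ℝ)) atTop
      (𝓝 (2 * (Real.exp Real.eulerMascheroniConstant * Real.log 2 *
        (Real.log v - Real.log u)))) := by
  have hB := curve_B hA hpos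
  obtain ⟨h1, h2, h3, h4⟩ := final_gen (S := SB fun x => Real.log (A (Real.exp x)))
    (meas_SB hB.continuousOn) (summable_curve hB hu huv) (law_curve hB hu huv)
    (pair_curve hB hu huv.le)
  have e : ∀ x ∈ Set.Ioc u v, {k | x ∈ SB (fun x => Real.log (A (Real.exp x))) k} =
      Pr (Real.exp x) (A (Real.exp x)) := by
    intro x hx
    have hx0 : 0 < x := hu.trans hx.1
    have hA0 := hpos _ (Real.one_lt_exp_iff.2 hx0)
    ext k
    constructor
    · rintro ⟨_, h⟩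
      rw [Real.exp_log hA0] at h
      exact h
    · intro h
      refine ⟨hx0, ?_⟩
      rw [Real.exp_log hA0]
      exact h
  refine ⟨h1.congr fun m => ?_, h2.congr fun m => ?_, h3.congr fun m => ?_, h4.congr fun m => ?_⟩
  · congr 2
    ext x
    refine and_congr_right fun hx => ?_
    rw [e x hx]
  · congr 2
    ext x
    refine and_congr_right fun hx => ?_
    rw [e x hx]
  · congr 2
    ext x
    refine and_congr_right fun hx => ?_
    rw [e x hx]
  · congr 1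
    refine setIntegral_congr_fun measurableSet_Ioc fun x hx => ?_
    simp only [e x hx]

theorem finite_curve {A : ℝ → ℝ} (hA : ContDiffOn ℝ 1 A (Set.Ioi 1))
    (hpos : ∀ α : ℝ, 1 < α → 0 < A α) : ∀ᵐ α : ℝ, 1 < α → (Pr α (A α)).Finite := by
  have hB := curve_B hA hpos
  have h : ∀ᵐ x : ℝ, 0 < x → (Pr (Real.exp x) (A (Real.exp x))).Finite := by
    refine ae_all_windows fun u v hu huv => ?_
    have h1 := bc (meas_SB hB.continuousOn) (summable_curve hB hu huv)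
    have h2 : ∀ᵐ x ∂(volume.restrict (Set.Ioc u v)), x ∈ Set.Ioc u v :=
      ae_restrict_mem measurableSet_Ioc
    filter_upwards [h1, h2] with x hx hxI
    have hx0 : 0 < x := hu.trans hxI.1
    have hA0 := hpos _ (Real.one_lt_exp_iff.2 hx0)
    refine hx.subset fun k hk => ?_
    refine ⟨hx0, ?_⟩
    rw [Real.exp_log hA0]
    exact hk
  have := ae_exp (Q := fun α => (Pr α (A α)).Finite) h
  rwa [Real.exp_zero] at this

end Pool.Agent.V1193.FM
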