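import Pool.Agent.H447R2.ML.Q3
import Pool.Agent.H305R2.Mean

set_option autoImplicit false

/-! Prime rough parts of the smallest integer above `exp t`: shifted window bounds and asymptotics. -/

namespace Pool.Agent.V1193.FM

open Finset Filter Topology MeasureTheory
open Pool.Agent.H305R2 (NN roughPart measurable_NN ff ff_nonneg ff_le_one integrableOn_ff FF FF_sub
  FF_mono FF_sub_le bounds)

/-- indicator of the event that the `p`-rough part of `NN t + 1` is prime -/
noncomputable def g (p : ℕ) (t : ℝ) : ℝ := if (roughPart p (NN t + 1)).Prime then 1 else 0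

lemma measurable_g (p : ℕ) : Measurable (g p) :=
  (measurable_from_nat (f := fun n : ℕ => if (roughPart p (n + 1)).Prime then (1 : ℝ) else 0)).comp
    measurable_NN

lemma g_nonneg (p : ℕ) (t : ℝ) : 0 ≤ g p t := by unfold g; split_ifs <;> norm_num

lemma g_le_one (p : ℕ) (t : ℝ) : g p t ≤ 1 := by unfold g; split_ifs <;> norm_num

lemma integrableOn_g (p : ℕ) (a b : ℝ) : IntegrableOn (g p) (Set.Ioc a b) := by
  refine Measure.integrableOn_of_bounded (M := 1) (by simp) (measurable_g p).aestronglyMeasurable ?_
  refine Eventually.of_forall fun t => ?_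
  rw [Real.norm_of_nonneg (g_nonneg p t)]
  exact g_le_one p t

/-- the shift -/
noncomputable def ph (t : ℝ) : ℝ := Real.log (Real.exp t + 1)

lemma g_eq (p : ℕ) (t : ℝ) : g p t = ff p (ph t) := by
  have h0 : 0 < Real.exp t := Real.exp_pos t
  have h : NN (ph t) = NN t + 1 := by
    unfold NN ph
    rw [Real.exp_log (by positivity), Nat.ceil_add_one h0.le]
    have : 0 < ⌈Real.exp t⌉₊ := Nat.ceil_pos.2 h0
    omega
  unfold g ff
  rw [h]

lemma exp_ph (t : ℝ) : Real.exp (ph t) = Real.exp t + 1 := by
  unfold ph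
  rw [Real.exp_log (by positivity)]

lemma ph_mono {s t : ℝ} (h : s ≤ t) : ph s ≤ ph t := by
  rw [← Real.exp_le_exp, exp_ph, exp_ph]
  linarith [Real.exp_le_exp.2 h]

lemma ph_strict {s t : ℝ} (h : s < t) : ph s < ph t := by
  rw [← Real.exp_lt_exp, exp_ph, exp_ph]
  linarith [Real.exp_lt_exp.2 h]

lemma ph_ge (t : ℝ) : t ≤ ph t := by
  rw [← Real.exp_le_exp, exp_ph]; linarith

lemma ph_sub (t : ℝ) : ph t - t ≤ Real.exp (-t) := by
  have h : ph t = t + Real.log (1 + Real.exp (-t)) := by
    unfold ph
    have : Real.exp t + 1 = Real.exp t * (1 + Real.exp (-t)) := by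
      rw [mul_add, ← Real.exp_add]; simp
    rw [this, Real.log_mul (Real.exp_pos t).ne' (by positivity), Real.log_exp]
  have h2 := Real.log_le_sub_one_of_pos (show 0 < 1 + Real.exp (-t) by positivity)
  linarith

lemma ph_deriv (t : ℝ) : HasDerivAt ph (Real.exp t / (Real.exp t + 1)) t := by
  unfold ph
  exact ((Real.hasDerivAt_exp t).add_const 1).log (by positivity)

lemma ph_image {u v : ℝ} : ph '' Set.Ioc u v = Set.Ioc (ph u) (ph v) := by
  ext s
  constructor
  · rintro ⟨t, ⟨h1, h2⟩, rfl⟩
    exact ⟨ph_strict h1, ph_mono h2⟩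
  · rintro ⟨h1, h2⟩
    have h3 : Real.exp u + 1 < Real.exp s := by rw [← exp_ph]; exact Real.exp_lt_exp.2 h1
    have h4 : Real.exp s ≤ Real.exp v + 1 := by rw [← exp_ph]; exact Real.exp_le_exp.2 h2
    have h5 : 0 < Real.exp s - 1 := by linarith [Real.exp_pos u]
    refine ⟨Real.log (Real.exp s - 1), ⟨?_, ?_⟩, ?_⟩
    · rw [← Real.exp_lt_exp, Real.exp_log h5]; linarith
    · rw [← Real.exp_le_exp, Real.exp_log h5]; linarith
    · unfold ph
      rw [Real.exp_log h5, sub_add_cancel, Real.log_exp]

lemma compare (p : ℕ) {u v : ℝ} (huv : u ≤ v) :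
    |(∫ t in Set.Ioc u v, g p t) - ∫ t in Set.Ioc u v, ff p t| ≤ 2 * Real.exp (-u) := by
  have h1 : ∫ t in Set.Ioc (ph u) (ph v), ff p t =
      ∫ t in Set.Ioc u v, (Real.exp t / (Real.exp t + 1)) * g p t := by
    rw [← ph_image, integral_image_eq_integral_abs_deriv_smul measurableSet_Ioc
      (fun x _ => (ph_deriv x).hasDerivWithinAt)
      (fun x _ y _ h => by
        rcases lt_trichotomy x y with h' | h' | h'
        · exact absurd h (ph_strict h').ne
        · exact h'
        · exact absurd h (ph_strict h').ne')]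
    refine setIntegral_congr_fun measurableSet_Ioc fun t _ => ?_
    rw [abs_of_pos (by positivity), smul_eq_mul, g_eq]
  have hint : IntegrableOn (fun t => (Real.exp t / (Real.exp t + 1)) * g p t) (Set.Ioc u v) := by
    refine Measure.integrableOn_of_bounded (M := 1) (by simp) ?_ ?_
    · refine Measurable.aestronglyMeasurable ?_
      exact (by fun_prop : Measurable fun t : ℝ => Real.exp t / (Real.exp t + 1)).mul
        (measurable_g p)
    · refine Eventually.of_forall fun t => ?_
      have h0 := Real.exp_pos t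
      have h2 : Real.exp t / (Real.exp t + 1) ≤ 1 := by rw [div_le_one (by positivity)]; linarith
      rw [Real.norm_of_nonneg (mul_nonneg (by positivity) (g_nonneg p t))]
      exact mul_le_one₀ h2 (g_nonneg p t) (g_le_one p t)
  have h2 : (∫ t in Set.Ioc u v, g p t) - ∫ t in Set.Ioc (ph u) (ph v), ff p t =
      ∫ t in Set.Ioc u v, (1 / (Real.exp t + 1)) * g p t := by
    rw [h1, ← integral_sub (integrableOn_g p u v) hint]
    refine setIntegral_congr_fun measurableSet_Ioc fun t _ => ?_
    have h0 := Real.exp_pos t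
    field_simp
    ring
  have h3 : 0 ≤ ∫ t in Set.Ioc u v, (1 / (Real.exp t + 1)) * g p t :=
    setIntegral_nonneg measurableSet_Ioc fun t _ => mul_nonneg (by positivity) (g_nonneg p t)
  have h4 : ∫ t in Set.Ioc u v, (1 / (Real.exp t + 1)) * g p t ≤ Real.exp (-u) := by
    have hi2 : IntegrableOn (fun t : ℝ => (1 / (Real.exp t + 1)) * g p t) (Set.Ioc u v) := by
      have := (integrableOn_g p u v).sub hint
      refine this.congr_fun (fun t _ => ?_) measurableSet_Ioc
      have h0 := Real.exp_pos t
      simp only [Pi.sub_apply]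
      field_simp
      ring
    have hi3 : IntegrableOn (fun t : ℝ => Real.exp (-t)) (Set.Ioc u v) :=
      (by fun_prop : Continuous fun t : ℝ => Real.exp (-t)).integrableOn_Ioc
    calc ∫ t in Set.Ioc u v, (1 / (Real.exp t + 1)) * g p t
        ≤ ∫ t in Set.Ioc u v, Real.exp (-t) := by
          refine setIntegral_mono_on hi2 hi3 measurableSet_Ioc fun t _ => ?_
          have h0 := Real.exp_pos t
          have h5 : 1 / (Real.exp t + 1) ≤ Real.exp (-t) := by
            rw [Real.exp_neg, ← one_div]
            exact one_div_le_one_div_of_le h0 (by linarith)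
          calc (1 / (Real.exp t + 1)) * g p t ≤ Real.exp (-t) * 1 :=
                mul_le_mul h5 (g_le_one p t) (g_nonneg p t) (Real.exp_pos _).le
            _ = _ := mul_one _
      _ = Real.exp (-u) - Real.exp (-v) := by
          rw [← intervalIntegral.integral_of_le huv,
            intervalIntegral.integral_comp_neg (fun x => Real.exp x), integral_exp]
      _ ≤ _ := by linarith [Real.exp_pos (-v)]
  have h5 := FF_sub p huv
  have h6 := FF_sub p (ph_mono huv)
  have h7 := FF_mono p (ph_ge u)
  have h8 := FF_mono p (ph_ge v)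
  have h9 := FF_sub_le p (ph_ge u)
  have h10 := FF_sub_le p (ph_ge v)
  have h11 := ph_sub u
  have h12 := ph_sub v
  have h13 : Real.exp (-v) ≤ Real.exp (-u) := Real.exp_le_exp.2 (by linarith)
  rw [abs_le]
  constructor <;> linarith

end Pool.Agent.V1193.FM
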