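import Pool.Agent.V1193.FM.A

set_option autoImplicit false

/-! Asymptotics and bounds for windows of arbitrary length. -/

namespace Pool.Agent.V1193.FM

open Finset Filter Topology MeasureTheory
open Pool.Agent.H305R2 (NN roughPart measurable_NN ff ff_nonneg ff_le_one integrableOn_ff FF FF_sub
  FF_mono FF_sub_le bounds)

/-- windows of arbitrary length, for `ff` -/
theorem ff_asymp {a l : ℝ} (ha : 0 < a) (hl : 0 < l) {y : ℕ → ℝ}
    (hy : Tendsto (fun p : ℕ => y p / p) atTop (𝓝 a)) :
    Tendsto (fun p : ℕ => (∫ t in Set.Ioc (y p) (y p + l), ff p t) * (p / Real.log p)) atTop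
      (𝓝 (Real.exp Real.eulerMascheroniConstant * l / a)) := by
  set k : ℕ := ⌈l⌉₊ with hk
  have hk0 : 0 < k := Nat.ceil_pos.2 hl
  have hkr : (0 : ℝ) < k := by exact_mod_cast hk0
  have hlk : l ≤ k := Nat.le_ceil l
  have hl' : 0 < l / k := by positivity
  have hl1 : l / k ≤ 1 := by rw [div_le_one hkr]; exact hlk
  have hw : ∀ i : ℕ, Tendsto (fun p : ℕ => (∫ t in Set.Ioc (y p + i * (l / k))
      (y p + i * (l / k) + l / k), ff p t) * (p / Real.log p)) atTop
      (𝓝 (Real.exp Real.eulerMascheroniConstant * (l / k) / a)) := by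
    intro i
    refine Pool.Agent.H447R2.ML.window_asymp_l ha hl' hl1 ?_
    have h1 : Tendsto (fun p : ℕ => (i * (l / k)) / (p : ℝ)) atTop (𝓝 0) :=
      tendsto_const_div_atTop_nhds_zero_nat _
    have h2 := hy.add h1
    rw [add_zero] at h2
    refine h2.congr fun p => ?_
    rw [add_div]
  have hs := tendsto_finset_sum (Finset.range k) fun i _ => hw i
  have e1 : ∑ _i ∈ Finset.range k, Real.exp Real.eulerMascheroniConstant * (l / k) / a =
      Real.exp Real.eulerMascheroniConstant * l / a := by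
    rw [Finset.sum_const, Finset.card_range, nsmul_eq_mul]
    field_simp
  rw [e1] at hs
  refine hs.congr fun p => ?_
  rw [← Finset.sum_mul]
  congr 1
  have h3 : ∀ i : ℕ, ∫ t in Set.Ioc (y p + i * (l / k)) (y p + i * (l / k) + l / k), ff p t =
      FF p (y p + ((i + 1 : ℕ) : ℝ) * (l / k)) - FF p (y p + (i : ℝ) * (l / k)) := by
    intro i
    rw [← FF_sub p (by linarith)]
    congr 2
    push_cast; ring
  simp only [h3]
  rw [Finset.sum_range_sub (fun i : ℕ => FF p (y p + (i : ℝ) * (l / k))), ← FF_sub p (by linarith)]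
  congr 2
  · field_simp
  · push_cast; ring

theorem exp_small {c : ℝ} (hc : 0 < c) :
    Tendsto (fun p : ℕ => (p : ℝ) ^ 2 * Real.exp (-(c * p))) atTop (𝓝 0) := by
  have h1 := Real.tendsto_pow_mul_exp_neg_atTop_nhds_zero 2
  have h2 : Tendsto (fun p : ℕ => c * (p : ℝ)) atTop atTop :=
    (tendsto_natCast_atTop_atTop (R := ℝ)).const_mul_atTop hc
  have h3 := (h1.comp h2).const_mul (1 / c ^ 2)
  rw [mul_zero] at h3
  refine h3.congr fun p => ?_
  simp only [Function.comp]
  field_simp

/-- windows of arbitrary length, for `g` -/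
theorem g_asymp {a l : ℝ} (ha : 0 < a) (hl : 0 < l) {y : ℕ → ℝ}
    (hy : Tendsto (fun p : ℕ => y p / p) atTop (𝓝 a)) :
    Tendsto (fun p : ℕ => (∫ t in Set.Ioc (y p) (y p + l), g p t) * (p / Real.log p)) atTop
      (𝓝 (Real.exp Real.eulerMascheroniConstant * l / a)) := by
  have h1 := ff_asymp ha hl hy
  have h2 : Tendsto (fun p : ℕ => ((∫ t in Set.Ioc (y p) (y p + l), g p t) -
      ∫ t in Set.Ioc (y p) (y p + l), ff p t) * (p / Real.log p)) atTop (𝓝 0) := by
    have h3 : Tendsto (fun p : ℕ => 2 * ((p : ℝ) ^ 2 * Real.exp (-(a / 2 * p)))) atTop (𝓝 0) := by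
      have := (exp_small (show 0 < a / 2 by positivity)).const_mul 2
      rwa [mul_zero] at this
    refine squeeze_zero_norm' ?_ h3
    have h4 := hy.eventually_const_lt (show a / 2 < a by linarith)
    filter_upwards [h4, eventually_ge_atTop 3] with p hp hp3
    have hp3' : (3 : ℝ) ≤ p := by exact_mod_cast hp3
    have hp0 : (0 : ℝ) < p := by linarith
    have hlog : 1 ≤ Real.log p := by
      rw [Real.le_log_iff_exp_le hp0]
      have := Real.exp_one_lt_d9
      linarith
    have hyp : a / 2 * p ≤ y p := by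
      rw [lt_div_iff₀ hp0] at hp
      exact hp.le
    rw [norm_mul, Real.norm_eq_abs, Real.norm_of_nonneg (by positivity)]
    have h5 := compare p (show y p ≤ y p + l by linarith)
    have h6 : Real.exp (-(y p)) ≤ Real.exp (-(a / 2 * p)) := Real.exp_le_exp.2 (by linarith)
    have h7 : (p : ℝ) / Real.log p ≤ p ^ 2 := by
      rw [div_le_iff₀ (by linarith)]
      nlinarith
    calc _ ≤ (2 * Real.exp (-(a / 2 * p))) * p ^ 2 :=
          mul_le_mul (h5.trans (by linarith)) h7 (by positivity) (by positivity)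
      _ = _ := by ring
  have h3 := h1.add h2
  rw [add_zero] at h3
  refine h3.congr fun p => ?_
  ring

/-- upper bounds for windows of arbitrary length -/
theorem g_bound {c : ℝ} (hc : 0 < c) : ∃ K : ℝ, 0 < K ∧ ∀ᶠ p : ℕ in atTop,
    ∀ u v, c * p + 1 ≤ u → u ≤ v →
      ∫ t in Set.Ioc u v, g p t ≤ K * ((v - u) + 1 / p) * (Real.log p / p) := by
  obtain ⟨K, hK, hev⟩ := bounds hc
  refine ⟨K + 2, by positivity, ?_⟩
  have h1 := (exp_small hc).eventually_le_const (show (0 : ℝ) < 1 by norm_num)
  filter_upwards [hev, h1, eventually_ge_atTop 3] with p hp hp1 hp3 u v hu huv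
  have hp3' : (3 : ℝ) ≤ p := by exact_mod_cast hp3
  have hp0 : (0 : ℝ) < p := by linarith
  have hlog : 1 ≤ Real.log p := by
    rw [Real.le_log_iff_exp_le hp0]
    have := Real.exp_one_lt_d9
    linarith
  have h2 := hp.2.1 u v hu huv
  have h3 := (abs_le.1 (compare p huv)).2
  have h4 : Real.exp (-u) ≤ Real.exp (-(c * p)) := Real.exp_le_exp.2 (by linarith)
  have h5 : Real.exp (-(c * p)) ≤ 1 / p * (Real.log p / p) := by
    rw [show 1 / (p : ℝ) * (Real.log p / p) = Real.log p / p ^ 2 by field_simp,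
      le_div_iff₀ (by positivity)]
    nlinarith
  have h6 : 0 ≤ (v - u) * (Real.log p / p) := mul_nonneg (by linarith) (by positivity)
  have h7 : (K + 2) * ((v - u) + 1 / p) * (Real.log p / p) =
      K * ((v - u) + 1 / p) * (Real.log p / p) + 2 * ((v - u) * (Real.log p / p)) +
        2 * (1 / p * (Real.log p / p)) := by ring
  rw [h7]
  linarith

end Pool.Agent.V1193.FM
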