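import Pool.Agent.V1193.FM.B

set_option autoImplicit false

/-! The metric theory of the numbers `⌊β α ^ (2 ^ m)⌋ + 1`. -/

namespace Pool.Agent.V1193.FM

open Finset Filter Topology MeasureTheory
open Pool.Agent.H305R2 (NN roughPart measurable_NN)

/-- the smallest integer larger than `β α ^ (2 ^ m)` -/
noncomputable def XX (α β : ℝ) (m : ℕ) : ℕ := ⌊β * α ^ (2 ^ m)⌋₊ + 1

/-- its `2 ^ (m + 1)`-rough part -/
noncomputable def WW (α β : ℝ) (m : ℕ) : ℕ := roughPart (2 ^ (m + 1)) (XX α β m)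

/-! ### integers -/

lemma rough_self {p n : ℕ} (hn : n ≠ 0) (h : ∀ q : ℕ, q.Prime → q ∣ n → p < q) :
    roughPart p n = n := by
  unfold roughPart
  rw [List.filter_eq_self.2, Nat.prod_primeFactorsList hn]
  intro q hq
  have := Nat.mem_primeFactorsList hn |>.1 hq
  exact decide_eq_true (h q this.1 this.2)

lemma rough_two {p n : ℕ} (hn : n ≠ 0) (hp : 2 ≤ p) (h : ∀ q : ℕ, q.Prime → q ∣ n → p < q) :
    roughPart p (2 * n) = n := by
  have h1 := (Nat.perm_primeFactorsList_mul (two_ne_zero) hn).filter (fun r => decide (p < r))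
  unfold roughPart
  rw [h1.prod_eq, List.filter_append, List.prod_append, Nat.primeFactorsList_prime Nat.prime_two]
  have h2 : List.filter (fun r => decide (p < r)) [2] = [] := by
    rw [List.filter_eq_nil_iff]
    intro r hr
    simp only [List.mem_singleton] at hr
    simp only [decide_eq_true_eq]
    omega
  rw [h2, List.prod_nil, one_mul]
  exact rough_self hn h

lemma factor_large {a m q : ℕ} (hq : q.Prime) (hq2 : q ≠ 2) (h : q ∣ a ^ (2 ^ m) + 1) :
    2 ^ (m + 1) < q := by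
  have := Fact.mk hq
  have h1 : ((a : ZMod q)) ^ (2 ^ m) = -1 := by
    have : ((a ^ (2 ^ m) + 1 : ℕ) : ZMod q) = 0 := (ZMod.natCast_eq_zero_iff _ _).2 h
    push_cast at this
    exact eq_neg_of_add_eq_zero_left this
  have h2 : ((a : ZMod q)) ≠ 0 := by
    intro h0
    rw [h0, zero_pow (by positivity)] at h1
    have h3 : (1 : ZMod q) = 0 := by
      have := congrArg Neg.neg h1
      simpa using this.symm
    exact one_ne_zero h3
  have h3 : orderOf (a : ZMod q) = 2 ^ (m + 1) := by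
    refine orderOf_eq_prime_pow ?_ ?_
    · rw [h1]
      intro h4
      have h5 : (2 : ZMod q) = 0 := by
        have : (1 : ZMod q) + 1 = 0 := by
          nth_rewrite 1 [← h4]
          ring
        rw [← this]; norm_num
      have h6 : ((2 : ℕ) : ZMod q) = 0 := by exact_mod_cast h5
      rw [ZMod.natCast_eq_zero_iff] at h6
      exact hq2 ((Nat.prime_dvd_prime_iff_eq hq Nat.prime_two).1 h6)
    · rw [pow_succ, pow_mul, h1]
      norm_num
  have h4 := ZMod.orderOf_dvd_card_sub_one h2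
  rw [h3] at h4
  have h5 := Nat.le_of_dvd (by have := hq.two_le; omega) h4
  have := hq.two_le
  omega

lemma XX_nat (a m : ℕ) : XX a 1 m = a ^ (2 ^ m) + 1 := by
  unfold XX
  rw [one_mul]
  have : ((a : ℝ) ^ (2 ^ m)) = ((a ^ (2 ^ m) : ℕ) : ℝ) := by push_cast; rfl
  rw [this, Nat.floor_natCast]

lemma WW_even {a : ℕ} (ha : Even a) (ha2 : 2 ≤ a) (m : ℕ) : WW a 1 m = a ^ (2 ^ m) + 1 := by
  unfold WW
  rw [XX_nat]
  refine rough_self (by positivity) fun q hq hd => factor_large hq ?_ hd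
  rintro rfl
  have h1 : Even (a ^ (2 ^ m)) := (Nat.even_pow.2 ⟨ha, by positivity⟩)
  have h2 : Even (a ^ (2 ^ m) + 1) := even_iff_two_dvd.2 hd
  rw [Nat.even_add_one] at h2
  exact h2 h1

lemma WW_odd {a : ℕ} (ha : Odd a) {m : ℕ} (hm : 1 ≤ m) :
    WW a 1 m = (a ^ (2 ^ m) + 1) / 2 := by
  obtain ⟨m', rfl⟩ : ∃ m', m = m' + 1 := ⟨m - 1, by omega⟩
  have h8 : a ^ (2 ^ (m' + 1)) % 8 = 1 := by
    have h1 : a ^ 2 % 8 = 1 := by
      obtain ⟨k, rfl⟩ := ha
      have : k % 4 = 0 ∨ k % 4 = 1 ∨ k % 4 = 2 ∨ k % 4 = 3 := by omega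
      obtain ⟨j, hj⟩ : ∃ j, k * (k + 1) = 2 * j := by
        obtain ⟨j, hj⟩ := Nat.even_mul_succ_self k
        exact ⟨j, by rw [hj]; ring⟩
      have : (2 * k + 1) ^ 2 = 8 * j + 1 := by nlinarith
      omega
    rw [pow_succ', pow_mul, Nat.pow_mod, h1, one_pow]
    norm_num
  set n := a ^ (2 ^ (m' + 1)) with hn
  obtain ⟨k, hk⟩ : ∃ k, n + 1 = 2 * k ∧ k % 4 = 1 := ⟨(n + 1) / 2, by omega, by omega⟩
  have hdiv : (n + 1) / 2 = k := by omega
  rw [hdiv]
  unfold WW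
  rw [XX_nat, ← hn, hk.1]
  refine rough_two (by omega) ?_ fun q hq hd => ?_
  · calc 2 = 2 ^ 1 := by norm_num
      _ ≤ 2 ^ (m' + 1 + 1) := Nat.pow_le_pow_right (by norm_num) (by omega)
  · refine factor_large (a := a) hq ?_ ?_
    · rintro rfl
      omega
    · rw [← hn, hk.1]
      exact Dvd.dvd.mul_left hd 2

/-! ### relation with `g` -/

lemma floor_eq {t : ℝ} (h : ∀ n : ℕ, t ≠ Real.log n) : ⌊Real.exp t⌋₊ + 1 = NN t + 1 := by
  unfold NN
  have h0 := Real.exp_pos t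
  have h1 : 0 < ⌈Real.exp t⌉₊ := Nat.ceil_pos.2 h0
  have h2 : ⌊Real.exp t⌋₊ < ⌈Real.exp t⌉₊ := by
    rw [Nat.lt_ceil]
    refine lt_of_le_of_ne (Nat.floor_le h0.le) fun h3 => h ⌊Real.exp t⌋₊ ?_
    rw [h3, Real.log_exp]
  have h3 : ⌈Real.exp t⌉₊ ≤ ⌊Real.exp t⌋₊ + 1 := Nat.ceil_le_floor_add_one _
  omega

lemma arg_eq (x y : ℝ) (m : ℕ) : Real.exp y * Real.exp x ^ (2 ^ m) = Real.exp (y + 2 ^ m * x) := by
  rw [Real.exp_add, ← Real.exp_nat_mul]
  push_cast
  rfl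

lemma ind_eq {x y : ℝ} {m : ℕ} (h : ∀ n : ℕ, y + 2 ^ m * x ≠ Real.log n) :
    (if (WW (Real.exp x) (Real.exp y) m).Prime then (1 : ℝ) else 0) =
      g (2 ^ (m + 1)) (y + 2 ^ m * x) := by
  unfold WW XX g
  rw [arg_eq, floor_eq h]

lemma meas_y (x : ℝ) (m : ℕ) : MeasurableSet {y : ℝ | (WW (Real.exp x) (Real.exp y) m).Prime} := by
  have h : Measurable fun y : ℝ => ⌊Real.exp y * Real.exp x ^ (2 ^ m)⌋₊ :=
    Nat.measurable_floor.comp (by fun_prop)
  exact h (MeasurableSet.of_discrete (s := {n : ℕ | (roughPart (2 ^ (m + 1)) (n + 1)).Prime}))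

lemma meas_x (y : ℝ) (m : ℕ) : MeasurableSet {x : ℝ | (WW (Real.exp x) (Real.exp y) m).Prime} := by
  have h : Measurable fun x : ℝ => ⌊Real.exp y * Real.exp x ^ (2 ^ m)⌋₊ :=
    Nat.measurable_floor.comp (by fun_prop)
  exact h (MeasurableSet.of_discrete (s := {n : ℕ | (roughPart (2 ^ (m + 1)) (n + 1)).Prime}))

lemma ae_ne_y (x : ℝ) (m : ℕ) : ∀ᵐ y : ℝ, ∀ n : ℕ, y + 2 ^ m * x ≠ Real.log n := by
  rw [ae_all_iff]
  intro n
  have : {y : ℝ | y + 2 ^ m * x = Real.log n} = {Real.log n - 2 ^ m * x} := by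
    ext y
    simp only [Set.mem_ofPred_eq, Set.mem_singleton_iff]
    constructor <;> intro h <;> linarith
  rw [ae_iff]
  simp only [ne_eq, not_not]
  rw [this]
  simp

lemma ae_ne_x (y : ℝ) (m : ℕ) : ∀ᵐ x : ℝ, ∀ n : ℕ, y + 2 ^ m * x ≠ Real.log n := by
  rw [ae_all_iff]
  intro n
  have : {x : ℝ | y + 2 ^ m * x = Real.log n} = {(Real.log n - y) / 2 ^ m} := by
    ext x
    simp only [Set.mem_ofPred_eq, Set.mem_singleton_iff]
    rw [eq_div_iff (by positivity)]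
    constructor <;> intro h <;> linarith
  rw [ae_iff]
  simp only [ne_eq, not_not]
  rw [this]
  simp

/-- the measure of the amplitudes -/
lemma mu_y (x : ℝ) (m : ℕ) {u v : ℝ} (huv : u ≤ v) :
    ∫ y in Set.Ioc u v, (if (WW (Real.exp x) (Real.exp y) m).Prime then (1 : ℝ) else 0) =
      ∫ t in Set.Ioc (u + 2 ^ m * x) (v + 2 ^ m * x), g (2 ^ (m + 1)) t := by
  have h1 : ∫ y in Set.Ioc u v, (if (WW (Real.exp x) (Real.exp y) m).Prime then (1 : ℝ) else 0) =
      ∫ y in Set.Ioc u v, g (2 ^ (m + 1)) (y + 2 ^ m * x) := by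
    refine setIntegral_congr_ae measurableSet_Ioc ?_
    filter_upwards [ae_ne_y x m] with y hy _
    exact ind_eq hy
  rw [h1, ← intervalIntegral.integral_of_le huv, ← intervalIntegral.integral_of_le (by linarith),
    intervalIntegral.integral_comp_add_right]

/-- the measure of the bases -/
lemma mu_x (y : ℝ) (m : ℕ) {u v : ℝ} (huv : u ≤ v) :
    ∫ x in Set.Ioc u v, (if (WW (Real.exp x) (Real.exp y) m).Prime then (1 : ℝ) else 0) =
      (2 ^ m)⁻¹ * ∫ t in Set.Ioc (y + 2 ^ m * u) (y + 2 ^ m * v), g (2 ^ (m + 1)) t := by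
  have h1 : ∫ x in Set.Ioc u v, (if (WW (Real.exp x) (Real.exp y) m).Prime then (1 : ℝ) else 0) =
      ∫ x in Set.Ioc u v, g (2 ^ (m + 1)) (y + 2 ^ m * x) := by
    refine setIntegral_congr_ae measurableSet_Ioc ?_
    filter_upwards [ae_ne_x y m] with x hx _
    exact ind_eq hx
  have h2 : y + 2 ^ m * u ≤ y + 2 ^ m * v := by
    have : (0 : ℝ) < 2 ^ m := by positivity
    nlinarith
  rw [h1, ← intervalIntegral.integral_of_le huv, ← intervalIntegral.integral_of_le h2,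
    intervalIntegral.integral_comp_add_mul _ (by positivity), smul_eq_mul]

/-! ### asymptotics -/

lemma tendsto_P : Tendsto (fun m : ℕ => 2 ^ (m + 1)) atTop (atTop : Filter ℕ) :=
  (tendsto_pow_atTop_atTop_of_one_lt (by norm_num : 1 < 2)).comp (tendsto_add_atTop_nat 1)

theorem law {x : ℝ} (hx : 0 < x) {u v : ℝ} (huv : u < v) :
    Tendsto (fun m : ℕ => (2 ^ m / ((m : ℝ) + 1)) *
      ∫ t in Set.Ioc (u + 2 ^ m * x) (v + 2 ^ m * x), g (2 ^ (m + 1)) t) atTop
      (𝓝 (Real.exp Real.eulerMascheroniConstant * Real.log 2 / x * (v - u))) := by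
  have hy : Tendsto (fun p : ℕ => (u + x / 2 * p) / (p : ℝ)) atTop (𝓝 (x / 2)) := by
    have h1 : Tendsto (fun p : ℕ => u / (p : ℝ)) atTop (𝓝 0) :=
      tendsto_const_div_atTop_nhds_zero_nat _
    have h2 := h1.add_const (x / 2)
    rw [zero_add] at h2
    refine h2.congr' ?_
    filter_upwards [eventually_ge_atTop 1] with p hp
    have hp0 : (0 : ℝ) < p := by exact_mod_cast hp
    field_simp
  have h := (g_asymp (show 0 < x / 2 by positivity) (show 0 < v - u by linarith) hy).comp tendsto_P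
  have h2 := h.const_mul (Real.log 2 / 2)
  have e : Real.log 2 / 2 * (Real.exp Real.eulerMascheroniConstant * (v - u) / (x / 2)) =
      Real.exp Real.eulerMascheroniConstant * Real.log 2 / x * (v - u) := by
    field_simp
  rw [e] at h2
  refine h2.congr fun m => ?_
  simp only [Function.comp]
  have hl : Real.log 2 ≠ 0 := (Real.log_pos (by norm_num)).ne'
  have e1 : u + x / 2 * ((2 ^ (m + 1) : ℕ) : ℝ) = u + 2 ^ m * x := by
    push_cast; ring
  have e2 : u + x / 2 * ((2 ^ (m + 1) : ℕ) : ℝ) + (v - u) = v + 2 ^ m * x := by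
    push_cast; ring
  rw [e2, e1]
  have e3 : Real.log ((2 ^ (m + 1) : ℕ) : ℝ) = ((m : ℝ) + 1) * Real.log 2 := by
    push_cast
    rw [Real.log_pow]
    push_cast
    ring
  rw [e3]
  have e4 : (((2 ^ (m + 1) : ℕ) : ℝ)) = 2 * 2 ^ m := by push_cast; ring
  rw [e4]
  field_simp

/-- bounded multiples of `(m + 1) / 2 ^ m` -/
theorem summable_base : Summable fun m : ℕ => ((m : ℝ) + 1) / 2 ^ m := by
  have h1 := summable_pow_mul_geometric_of_norm_lt_one 1 (show ‖(1 / 2 : ℝ)‖ < 1 by norm_num)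
  have h2 := summable_geometric_two
  refine (h1.add h2).congr fun m => ?_
  rw [pow_one, one_div_pow]
  field_simp

theorem bdd_y {x : ℝ} (hx : 0 < x) {u v : ℝ} (huv : u < v) : ∃ B : ℝ, 0 ≤ B ∧ ∀ m : ℕ,
    (2 ^ m / ((m : ℝ) + 1)) *
      ∫ t in Set.Ioc (u + 2 ^ m * x) (v + 2 ^ m * x), g (2 ^ (m + 1)) t ≤ B := by
  obtain ⟨B, hB⟩ := (law hx huv).bddAbove_range
  exact ⟨max B 0, le_max_right _ _, fun m => (hB ⟨m, rfl⟩).trans (le_max_left _ _)⟩

theorem summable_y {x : ℝ} (hx : 0 < x) {u v : ℝ} (huv : u < v) :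
    Summable fun m : ℕ => ∫ t in Set.Ioc (u + 2 ^ m * x) (v + 2 ^ m * x), g (2 ^ (m + 1)) t := by
  obtain ⟨B, hB0, hB⟩ := bdd_y hx huv
  refine Summable.of_nonneg_of_le (fun m => setIntegral_nonneg measurableSet_Ioc
    fun t _ => g_nonneg _ t) (fun m => ?_) (summable_base.mul_left B)
  have h := hB m
  have h0 : (0 : ℝ) < 2 ^ m / ((m : ℝ) + 1) := by positivity
  have h1 : B * (((m : ℝ) + 1) / 2 ^ m) = B / (2 ^ m / ((m : ℝ) + 1)) := by
    field_simp
  rw [h1, le_div_iff₀ h0, mul_comm]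
  exact h

theorem summable_x {y : ℝ} {u v : ℝ} (hu : 0 < u) (huv : u ≤ v) :
    Summable fun m : ℕ => ((2 : ℝ) ^ m)⁻¹ *
      ∫ t in Set.Ioc (y + 2 ^ m * u) (y + 2 ^ m * v), g (2 ^ (m + 1)) t := by
  obtain ⟨K, hK, hev⟩ := g_bound (show 0 < u / 4 by positivity)
  have hev' := tendsto_P.eventually hev
  have h2 : Tendsto (fun m : ℕ => (2 : ℝ) ^ m * (u / 2)) atTop atTop :=
    (tendsto_pow_atTop_atTop_of_one_lt (by norm_num : (1 : ℝ) < 2)).atTop_mul_const (by positivity)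
  have h3 := h2.eventually_ge_atTop (1 - y)
  refine Summable.of_norm_bounded_eventually_nat
    (g := fun m : ℕ => K * ((v - u) + 1) * Real.log 2 * (((m : ℝ) + 1) / 2 ^ m))
    (summable_base.mul_left _) ?_
  filter_upwards [hev', h3] with m hm h4
  have hpos : (0 : ℝ) < 2 ^ m := by positivity
  have hone : (1 : ℝ) ≤ 2 ^ m := one_le_pow₀ (by norm_num)
  have hI0 : 0 ≤ ∫ t in Set.Ioc (y + 2 ^ m * u) (y + 2 ^ m * v), g (2 ^ (m + 1)) t :=
    setIntegral_nonneg measurableSet_Ioc fun t _ => g_nonneg _ t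
  rw [Real.norm_of_nonneg (by positivity)]
  have hl2 : 0 < Real.log 2 := Real.log_pos (by norm_num)
  have e4 : (((2 ^ (m + 1) : ℕ) : ℝ)) = 2 * 2 ^ m := by push_cast; ring
  have e3 : Real.log ((2 ^ (m + 1) : ℕ) : ℝ) = ((m : ℝ) + 1) * Real.log 2 := by
    push_cast
    rw [Real.log_pow]
    push_cast
    ring
  have h5 := hm (y + 2 ^ m * u) (y + 2 ^ m * v) (by rw [e4]; linarith) (by nlinarith)
  rw [e3, e4] at h5
  have h6 : (y + 2 ^ m * v) - (y + 2 ^ m * u) + 1 / (2 * 2 ^ m) ≤ 2 ^ m * ((v - u) + 1) := by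
    have : 1 / (2 * (2 : ℝ) ^ m) ≤ 1 := by
      rw [div_le_one (by positivity)]; linarith
    nlinarith
  calc ((2 : ℝ) ^ m)⁻¹ * ∫ t in Set.Ioc (y + 2 ^ m * u) (y + 2 ^ m * v), g (2 ^ (m + 1)) t
      ≤ ((2 : ℝ) ^ m)⁻¹ * (K * (2 ^ m * ((v - u) + 1)) * (((m : ℝ) + 1) * Real.log 2 / (2 * 2 ^ m))) := by
        refine mul_le_mul_of_nonneg_left (h5.trans ?_) (by positivity)
        refine mul_le_mul_of_nonneg_right (mul_le_mul_of_nonneg_left h6 hK.le) (by positivity)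
    _ = (K * ((v - u) + 1) * Real.log 2 * (((m : ℝ) + 1) / 2 ^ m)) / 2 := by
        field_simp
    _ ≤ _ := by
        have : 0 ≤ K * ((v - u) + 1) * Real.log 2 * (((m : ℝ) + 1) / 2 ^ m) := by
          have : 0 ≤ v - u := by linarith
          positivity
        linarith

end Pool.Agent.V1193.FM
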