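import Pool.Agent.V1193.FM.C

set_option autoImplicit false

/-! Almost every amplitude and almost every base; the expected number of indices. -/

namespace Pool.Agent.V1193.FM

open Finset Filter Topology MeasureTheory
open Pool.Agent.H305R2 (NN roughPart measurable_NN)

/-- Borel–Cantelli with integrals of indicators -/
lemma bc {S : ℕ → Set ℝ} (hS : ∀ m, MeasurableSet (S m)) {u v : ℝ}
    (h : Summable fun m => ∫ y in Set.Ioc u v, (S m).indicator (fun _ => (1 : ℝ)) y) :
    ∀ᵐ y ∂(volume.restrict (Set.Ioc u v)), {m | y ∈ S m}.Finite := by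
  refine ae_finite_setOfPred_mem ?_
  have e : ∀ m, (volume.restrict (Set.Ioc u v)) (S m) =
      ENNReal.ofReal (∫ y in Set.Ioc u v, (S m).indicator (fun _ => (1 : ℝ)) y) := by
    intro m
    rw [integral_indicator_const _ (hS m), smul_eq_mul, mul_one, Measure.real,
      ENNReal.ofReal_toReal (measure_ne_top _ _)]
  simp only [e]
  exact h.tsum_ofReal_ne_top

lemma ae_all_windows {Q : ℝ → Prop} {c : ℝ}
    (h : ∀ u v : ℝ, c < u → u < v → ∀ᵐ y ∂(volume.restrict (Set.Ioc u v)), Q y) :
    ∀ᵐ y : ℝ, c < y → Q y := by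
  have h1 : ∀ k : ℕ, ∀ᵐ y : ℝ, y ∈ Set.Ioc (c + 1 / ((k : ℝ) + 1)) (c + 1 / ((k : ℝ) + 1) + k + 1) →
      Q y := by
    intro k
    refine (ae_restrict_iff' measurableSet_Ioc).1 (h _ _ ?_ ?_)
    · have : (0 : ℝ) < 1 / ((k : ℝ) + 1) := by positivity
      linarith
    · have : (0 : ℝ) ≤ k := by positivity
      linarith
  rw [← ae_all_iff] at h1
  filter_upwards [h1] with y hy hcy
  obtain ⟨k1, hk1⟩ := exists_nat_one_div_lt (show 0 < y - c by linarith)
  obtain ⟨k2, hk2⟩ := exists_nat_ge (y - c)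
  refine hy (max k1 k2) ⟨?_, ?_⟩
  · have : 1 / (((max k1 k2 : ℕ) : ℝ) + 1) ≤ 1 / ((k1 : ℝ) + 1) := by
      refine one_div_le_one_div_of_le (by positivity) ?_
      have : (k1 : ℝ) ≤ ((max k1 k2 : ℕ) : ℝ) := by exact_mod_cast le_max_left _ _
      linarith
    linarith
  · have h2 : (k2 : ℝ) ≤ ((max k1 k2 : ℕ) : ℝ) := by exact_mod_cast le_max_right _ _
    have h3 : (0 : ℝ) < 1 / (((max k1 k2 : ℕ) : ℝ) + 1) := by positivity
    linarith

/-- almost every `y` for `β = exp y` -/
lemma ae_exp {Q : ℝ → Prop} {c : ℝ} (h : ∀ᵐ y : ℝ, c < y → Q (Real.exp y)) :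
    ∀ᵐ β : ℝ, Real.exp c < β → Q β := by
  rw [ae_iff] at h ⊢
  have h1 : {β : ℝ | ¬ (Real.exp c < β → Q β)} ⊆ Real.exp '' {y : ℝ | ¬ (c < y → Q (Real.exp y))} := by
    intro β hβ
    have hβ' : ¬ (Real.exp c < β → Q β) := hβ
    push Not at hβ'
    have h0 : 0 < β := lt_trans (Real.exp_pos c) hβ'.1
    refine ⟨Real.log β, ?_, Real.exp_log h0⟩
    show ¬ (c < Real.log β → Q (Real.exp (Real.log β)))
    rw [Real.exp_log h0]
    push Not
    exact ⟨(Real.lt_log_iff_exp_lt h0).2 hβ'.1, hβ'.2⟩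
  refine measure_mono_null h1 ?_
  exact addHaar_image_eq_zero_of_differentiableOn_of_addHaar_eq_zero volume
    (Real.differentiable_exp.differentiableOn) h

/-- almost every positive `β` -/
lemma ae_exp' {Q : ℝ → Prop} (h : ∀ᵐ y : ℝ, Q (Real.exp y)) : ∀ᵐ β : ℝ, 0 < β → Q β := by
  rw [ae_iff] at h ⊢
  have h1 : {β : ℝ | ¬ (0 < β → Q β)} ⊆ Real.exp '' {y : ℝ | ¬ Q (Real.exp y)} := by
    intro β hβ
    have hβ' : ¬ (0 < β → Q β) := hβ
    push Not at hβ'
    refine ⟨Real.log β, ?_, Real.exp_log hβ'.1⟩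
    show ¬ Q (Real.exp (Real.log β))
    rw [Real.exp_log hβ'.1]
    exact hβ'.2
  refine measure_mono_null h1 ?_
  exact addHaar_image_eq_zero_of_differentiableOn_of_addHaar_eq_zero volume
    (Real.differentiable_exp.differentiableOn) h

lemma ind_set (Q : ℝ → Prop) [DecidablePred Q] :
    (fun y => if Q y then (1 : ℝ) else 0) = ({y | Q y}).indicator (fun _ => (1 : ℝ)) := by
  funext y
  rw [Set.indicator_apply]
  rfl

theorem finite_y {x : ℝ} (hx : 0 < x) {u v : ℝ} (huv : u < v) :
    ∀ᵐ y ∂(volume.restrict (Set.Ioc u v)),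
      {m | (WW (Real.exp x) (Real.exp y) m).Prime}.Finite := by
  refine bc (S := fun m => {y : ℝ | (WW (Real.exp x) (Real.exp y) m).Prime}) (meas_y x) ?_
  refine (summable_y hx huv).congr fun m => ?_
  rw [← mu_y x m huv.le, ind_set]

theorem finite_x {y : ℝ} {u v : ℝ} (hu : 0 < u) (huv : u < v) :
    ∀ᵐ x ∂(volume.restrict (Set.Ioc u v)),
      {m | (WW (Real.exp x) (Real.exp y) m).Prime}.Finite := by
  refine bc (S := fun m => {x : ℝ | (WW (Real.exp x) (Real.exp y) m).Prime}) (meas_x y) ?_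
  refine (summable_x (y := y) hu huv.le).congr fun m => ?_
  rw [← mu_x y m huv.le, ind_set]

theorem all_y {α : ℝ} (hα : 1 < α) : ∀ᵐ y : ℝ, {m | (WW α (Real.exp y) m).Prime}.Finite := by
  have hx : 0 < Real.log α := Real.log_pos hα
  have h : ∀ k : ℕ, ∀ᵐ y : ℝ, -(k : ℝ) < y → {m | (WW α (Real.exp y) m).Prime}.Finite := by
    intro k
    refine ae_all_windows fun u v _ huv => ?_
    have := finite_y hx huv
    rwa [Real.exp_log (by linarith)] at this
  rw [← ae_all_iff] at h
  filter_upwards [h] with y hy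
  obtain ⟨k, hk⟩ := exists_nat_gt (-y)
  exact hy k (by linarith)

theorem amplitudes {α : ℝ} (hα : 1 < α) : ∀ᵐ β : ℝ, 0 < β → {m | (WW α β m).Prime}.Finite :=
  ae_exp' (Q := fun β => {m | (WW α β m).Prime}.Finite) (all_y hα)

theorem bases {β : ℝ} (hβ : 0 < β) : ∀ᵐ α : ℝ, 1 < α → {m | (WW α β m).Prime}.Finite := by
  have h : ∀ᵐ x : ℝ, 0 < x → {m | (WW (Real.exp x) β m).Prime}.Finite := by
    refine ae_all_windows fun u v hu huv => ?_
    have := finite_x (y := Real.log β) hu huv
    rwa [Real.exp_log hβ] at this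
  have := ae_exp (Q := fun α => {m | (WW α β m).Prime}.Finite) h
  rwa [Real.exp_zero] at this

/-! ### the expected number -/

/-- a finite set of indices is counted by the sum of its indicator -/
lemma ncard_eq {s : Set ℕ} (hs : s.Finite) : (s.ncard : ℝ) = ∑' m, s.indicator (fun _ => (1 : ℝ)) m := by
  classical
  rw [tsum_eq_sum (s := hs.toFinset)]
  · rw [Set.ncard_eq_toFinset_card s hs]
    have : ∀ m ∈ hs.toFinset, s.indicator (fun _ => (1 : ℝ)) m = 1 := by
      intro m hm
      rw [Set.indicator_of_mem (hs.mem_toFinset.1 hm)]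
    rw [Finset.sum_congr rfl this]
    simp
  · intro m hm
    rw [Set.indicator_of_notMem]
    intro h
    exact hm (hs.mem_toFinset.2 h)

/-- weighted tails -/
lemma tail {q : ℕ → ℝ} {L : ℝ} (hq : Tendsto q atTop (𝓝 L)) :
    Tendsto (fun M : ℕ => ∑' k : ℕ, q (M + k) * (((M : ℝ) + k + 1) / (((M : ℝ) + 1) * 2 ^ k))) atTop
      (𝓝 (2 * L)) := by
  obtain ⟨B, hB⟩ : ∃ B, ∀ m, |q m| ≤ B := by
    obtain ⟨B, hB⟩ := hq.abs.bddAbove_range
    exact ⟨B, fun m => hB ⟨m, rfl⟩⟩
  have hB0 : 0 ≤ B := (abs_nonneg _).trans (hB 0)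
  have hs : ∑' k : ℕ, L * (1 / 2 : ℝ) ^ k = 2 * L := by
    rw [tsum_mul_left, tsum_geometric_two]; ring
  rw [← hs]
  refine tendsto_tsum_of_dominated_convergence (bound := fun k : ℕ => B * (((k : ℝ) + 1) / 2 ^ k))
    (summable_base.mul_left B) ?_ ?_
  · intro k
    have h1 : Tendsto (fun M : ℕ => q (M + k)) atTop (𝓝 L) := hq.comp (tendsto_add_atTop_nat k)
    have h2 : Tendsto (fun M : ℕ => ((M : ℝ) + k + 1) / ((M : ℝ) + 1)) atTop (𝓝 1) := by
      have h3 : Tendsto (fun M : ℕ => (k : ℝ) / ((M : ℝ) + 1)) atTop (𝓝 0) :=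
        tendsto_const_nhds.div_atTop (tendsto_atTop_add_const_right _ _
          (tendsto_natCast_atTop_atTop (R := ℝ)))
      have h4 := h3.const_add 1
      rw [add_zero] at h4
      refine h4.congr fun M => ?_
      field_simp
      ring
    have h5 := (h1.mul h2).mul_const ((1 / 2 : ℝ) ^ k)
    rw [mul_one] at h5
    refine h5.congr fun M => ?_
    rw [one_div_pow]
    field_simp
  · refine Eventually.of_forall fun M k => ?_
    have h6 : ((M : ℝ) + k + 1) / (((M : ℝ) + 1) * 2 ^ k) ≤ ((k : ℝ) + 1) / 2 ^ k := by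
      rw [div_le_div_iff₀ (by positivity) (by positivity)]
      have : (M : ℝ) + k + 1 ≤ ((k : ℝ) + 1) * ((M : ℝ) + 1) := by
        have h7 : (0 : ℝ) ≤ (k : ℝ) * M := by positivity
        nlinarith
      calc ((M : ℝ) + k + 1) * 2 ^ k ≤ (((k : ℝ) + 1) * ((M : ℝ) + 1)) * 2 ^ k :=
            mul_le_mul_of_nonneg_right this (by positivity)
        _ = _ := by ring
    rw [norm_mul, Real.norm_eq_abs, Real.norm_of_nonneg (by positivity)]
    exact mul_le_mul (hB _) h6 (by positivity) hB0

/-- the expected number of indices from `M` on -/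
theorem expected_gen {S : ℕ → Set ℝ} (hS : ∀ m, MeasurableSet (S m)) {u v L : ℝ}
    (hsum : Summable fun m => ∫ y in Set.Ioc u v, (S m).indicator (fun _ => (1 : ℝ)) y)
    (hq : Tendsto (fun m : ℕ => (2 ^ m / ((m : ℝ) + 1)) *
      ∫ y in Set.Ioc u v, (S m).indicator (fun _ => (1 : ℝ)) y) atTop (𝓝 L)) :
    Tendsto (fun M : ℕ => (2 ^ M / ((M : ℝ) + 1)) *
      ∫ y in Set.Ioc u v, (({m | M ≤ m ∧ y ∈ S m}).ncard : ℝ)) atTop (𝓝 (2 * L)) := by
  set μ : ℕ → ℝ := fun m => ∫ y in Set.Ioc u v, (S m).indicator (fun _ => (1 : ℝ)) y with hμ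
  have hfin := bc hS hsum
  -- the mean number
  have key : ∀ M : ℕ, ∫ y in Set.Ioc u v, (({m | M ≤ m ∧ y ∈ S m}).ncard : ℝ) =
      ∑' k : ℕ, μ (M + k) := by
    intro M
    set F : ℕ → ℝ → ℝ := fun k y => (S (M + k)).indicator (fun _ => (1 : ℝ)) y with hF
    have hF0 : ∀ k y, 0 ≤ F k y := fun k y => Set.indicator_nonneg (fun _ _ => zero_le_one) _
    have hF1 : ∀ k y, F k y ≤ 1 := fun k y => Set.indicator_le_self' (fun _ _ => zero_le_one) _
    have hFi : ∀ k, Integrable (F k) (volume.restrict (Set.Ioc u v)) := by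
      intro k
      refine Measure.integrableOn_of_bounded (M := 1) (by simp) ?_ ?_
      · exact (measurable_const.indicator (hS (M + k))).aestronglyMeasurable
      · refine Eventually.of_forall fun y => ?_
        rw [Real.norm_of_nonneg (hF0 k y)]
        exact hF1 k y
    have hsn : Summable fun k => ∫ y in Set.Ioc u v, ‖F k y‖ := by
      have h1 : Summable fun k => μ (M + k) := by
        have := (summable_nat_add_iff M).2 hsum
        refine this.congr fun k => ?_
        rw [add_comm]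
      refine h1.congr fun k => ?_
      refine setIntegral_congr_fun measurableSet_Ioc fun y _ => ?_
      exact (Real.norm_of_nonneg (hF0 k y)).symm
    have h2 := integral_tsum_of_summable_integral_norm hFi hsn
    rw [show (∑' k : ℕ, μ (M + k)) = ∑' k, ∫ y in Set.Ioc u v, F k y from rfl, h2]
    refine integral_congr_ae ?_
    filter_upwards [hfin] with y hy
    have hfs : ({m | M ≤ m ∧ y ∈ S m}).Finite := hy.subset fun m hm => hm.2
    -- shift the set
    have hinj : Function.Injective (fun k : ℕ => M + k) := fun a b h => by simpa using h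
    have hset : {m | M ≤ m ∧ y ∈ S m} = (fun k : ℕ => M + k) '' {k | y ∈ S (M + k)} := by
      ext m
      constructor
      · rintro ⟨h3, h4⟩
        refine ⟨m - M, ?_, by simp only; omega⟩
        show y ∈ S (M + (m - M))
        rwa [show M + (m - M) = m by omega]
      · rintro ⟨k, h3, rfl⟩
        exact ⟨Nat.le_add_right _ _, h3⟩
    have hfk : ({k | y ∈ S (M + k)}).Finite := by
      rw [hset] at hfs
      exact Set.Finite.of_finite_image hfs hinj.injOn
    rw [hset, Set.ncard_image_of_injective _ hinj, ncard_eq hfk]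
    refine tsum_congr fun k => ?_
    simp only [hF]
    classical
    rw [Set.indicator_apply, Set.indicator_apply]
    rfl
  have ht := tail hq
  refine ht.congr fun M => ?_
  rw [key M, ← tsum_mul_left]
  refine tsum_congr fun k => ?_
  have e : ((M : ℝ) + k + 1) = (((M + k : ℕ) : ℝ) + 1) := by push_cast; ring
  rw [e]
  have h0 : (((M + k : ℕ) : ℝ) + 1) ≠ 0 := by positivity
  have e2 : (2 : ℝ) ^ (M + k) = 2 ^ M * 2 ^ k := pow_add _ _ _
  rw [e2]
  simp only [hμ]
  field_simp

/-! ### the law for the bases -/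

theorem law_x {y u v : ℝ} (hu : 0 < u) (huv : u < v) :
    Tendsto (fun m : ℕ => (2 ^ m / ((m : ℝ) + 1)) * (((2 : ℝ) ^ m)⁻¹ *
      ∫ t in Set.Ioc (y + 2 ^ m * u) (y + 2 ^ m * v), g (2 ^ (m + 1)) t)) atTop
      (𝓝 (Real.exp Real.eulerMascheroniConstant * Real.log 2 * (Real.log v - Real.log u))) := by
  set C := Real.exp Real.eulerMascheroniConstant * Real.log 2 with hC
  -- primitives
  set G : ℕ → ℝ → ℝ := fun p x => ∫ t in (0 : ℝ)..x, g p t with hG
  have hii : ∀ p a b, IntervalIntegrable (g p) volume a b := fun p a b =>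
    ⟨integrableOn_g p a b, integrableOn_g p b a⟩
  have Gsub : ∀ p {a b : ℝ}, a ≤ b → G p b - G p a = ∫ t in Set.Ioc a b, g p t := by
    intro p a b h
    simp only [hG]
    rw [intervalIntegral.integral_interval_sub_left (hii p 0 b) (hii p 0 a),
      intervalIntegral.integral_of_le h]
  have Gmono : ∀ p, Monotone (G p) := by
    intro p a b h
    have h1 := Gsub p h
    have h2 : 0 ≤ ∫ t in Set.Ioc a b, g p t :=
      setIntegral_nonneg measurableSet_Ioc fun t _ => g_nonneg p t
    linarith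
  have Gle : ∀ p {a b : ℝ}, a ≤ b → G p b - G p a ≤ b - a := by
    intro p a b h
    rw [Gsub p h]
    calc ∫ t in Set.Ioc a b, g p t ≤ ∫ t in Set.Ioc a b, (1 : ℝ) := by
          refine setIntegral_mono_on (integrableOn_g p a b) (integrableOn_const (by simp))
            measurableSet_Ioc fun t _ => g_le_one p t
      _ = b - a := by
          rw [setIntegral_const, smul_eq_mul, mul_one, Real.volume_real_Ioc_of_le h]
  have Gcont : ∀ p, Continuous (G p) := fun p =>
    intervalIntegral.continuous_primitive (fun a b => hii p a b) 0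
  -- the averaged function
  set H : ℕ → ℝ → ℝ := fun m x => (2 ^ m / ((m : ℝ) + 1)) *
    (G (2 ^ (m + 1)) (y + 2 ^ m * x + 1) - G (2 ^ (m + 1)) (y + 2 ^ m * x)) with hH
  have hHlim : ∀ x, 0 < x → Tendsto (fun m => H m x) atTop (𝓝 (C / x)) := by
    intro x hx
    have h := law hx (show y < y + 1 by linarith)
    rw [show Real.exp Real.eulerMascheroniConstant * Real.log 2 / x * (y + 1 - y) = C / x by
      rw [hC]; ring] at h
    refine h.congr fun m => ?_
    simp only [hH]
    rw [Gsub _ (by linarith), show y + 1 + 2 ^ m * x = y + 2 ^ m * x + 1 by ring]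
  obtain ⟨K, hK, hev⟩ := g_bound (show 0 < u / 4 by positivity)
  have hev' := tendsto_P.eventually hev
  have h2 : Tendsto (fun m : ℕ => (2 : ℝ) ^ m * (u / 2)) atTop atTop :=
    (tendsto_pow_atTop_atTop_of_one_lt (by norm_num : (1 : ℝ) < 2)).atTop_mul_const (by positivity)
  have h3 := h2.eventually_ge_atTop (1 - y)
  have hHb : ∀ᶠ m in atTop, ∀ x ∈ Set.Ioc u v, ‖H m x‖ ≤ K * Real.log 2 := by
    filter_upwards [hev', h3] with m hm h4 x hx
    have hpos : (0 : ℝ) < 2 ^ m := by positivity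
    have hone : (1 : ℝ) ≤ 2 ^ m := one_le_pow₀ (by norm_num)
    have hl2 : 0 < Real.log 2 := Real.log_pos (by norm_num)
    have e4 : (((2 ^ (m + 1) : ℕ) : ℝ)) = 2 * 2 ^ m := by push_cast; ring
    have e3 : Real.log ((2 ^ (m + 1) : ℕ) : ℝ) = ((m : ℝ) + 1) * Real.log 2 := by
      push_cast
      rw [Real.log_pow]
      push_cast
      ring
    have hux : 2 ^ m * u ≤ 2 ^ m * x := mul_le_mul_of_nonneg_left hx.1.le hpos.le
    have h5 := hm (y + 2 ^ m * x) (y + 2 ^ m * x + 1) (by rw [e4]; linarith) (by linarith)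
    rw [e3, e4, ← Gsub _ (by linarith)] at h5
    have h0 : 0 ≤ G (2 ^ (m + 1)) (y + 2 ^ m * x + 1) - G (2 ^ (m + 1)) (y + 2 ^ m * x) := by
      have := Gmono (2 ^ (m + 1)) (show y + 2 ^ m * x ≤ y + 2 ^ m * x + 1 by linarith)
      linarith
    have h6 : (y + 2 ^ m * x + 1 - (y + 2 ^ m * x) + 1 / (2 * 2 ^ m)) ≤ 2 := by
      have : 1 / (2 * (2 : ℝ) ^ m) ≤ 1 := by
        rw [div_le_one (by positivity)]; linarith
      linarith
    simp only [hH]
    rw [Real.norm_of_nonneg (mul_nonneg (by positivity) h0)]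
    calc _ ≤ (2 ^ m / ((m : ℝ) + 1)) * (K * 2 * (((m : ℝ) + 1) * Real.log 2 / (2 * 2 ^ m))) := by
          refine mul_le_mul_of_nonneg_left (h5.trans ?_) (by positivity)
          exact mul_le_mul_of_nonneg_right (mul_le_mul_of_nonneg_left h6 hK.le) (by positivity)
      _ = _ := by field_simp
  have hmain : Tendsto (fun m => ∫ x in Set.Ioc u v, H m x) atTop
      (𝓝 (∫ x in Set.Ioc u v, C / x)) := by
    refine tendsto_integral_filter_of_dominated_convergence (fun _ => K * Real.log 2) ?_ ?_ ?_ ?_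
    · refine Eventually.of_forall fun m => ?_
      simp only [hH]
      exact (continuous_const.mul (((Gcont _).comp (by fun_prop)).sub
        ((Gcont _).comp (by fun_prop)))).aestronglyMeasurable
    · filter_upwards [hHb] with m hm
      rw [ae_restrict_iff' measurableSet_Ioc]
      exact Eventually.of_forall hm
    · exact integrable_const _
    · rw [ae_restrict_iff' measurableSet_Ioc]
      exact Eventually.of_forall fun x hx => hHlim x (hu.trans hx.1)
  have hval : ∫ x in Set.Ioc u v, C / x = C * (Real.log v - Real.log u) := by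
    rw [← intervalIntegral.integral_of_le huv.le]
    simp only [div_eq_mul_inv]
    rw [intervalIntegral.integral_const_mul, integral_inv_of_pos hu (hu.trans huv),
      Real.log_div (hu.trans huv).ne' hu.ne']
  rw [hval] at hmain
  -- the difference
  have hdiff : Tendsto (fun m : ℕ => (2 ^ m / ((m : ℝ) + 1)) * (((2 : ℝ) ^ m)⁻¹ *
      ∫ t in Set.Ioc (y + 2 ^ m * u) (y + 2 ^ m * v), g (2 ^ (m + 1)) t) -
        ∫ x in Set.Ioc u v, H m x) atTop (𝓝 0) := by
    refine squeeze_zero_norm (a := fun m : ℕ => 1 / ((m : ℝ) + 1)) (fun m => ?_)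
      tendsto_one_div_add_atTop_nhds_zero_nat
    have hpos : (0 : ℝ) < 2 ^ m := by positivity
    set T1 := y + 2 ^ m * u with hT1
    set T2 := y + 2 ^ m * v with hT2
    have hT : T1 ≤ T2 := by
      rw [hT1, hT2]
      have : 2 ^ m * u ≤ 2 ^ m * v := mul_le_mul_of_nonneg_left huv.le hpos.le
      linarith
    set Gp := G (2 ^ (m + 1)) with hGp
    have hGc : Continuous Gp := Gcont _
    have hint : ∀ a b : ℝ, IntervalIntegrable Gp volume a b := fun a b => hGc.intervalIntegrable a b
    have e1 : ∫ x in Set.Ioc u v, H m x = (2 ^ m / ((m : ℝ) + 1)) * (((2 : ℝ) ^ m)⁻¹ *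
        ((∫ t in T2..(T2 + 1), Gp t) - ∫ t in T1..(T1 + 1), Gp t)) := by
      rw [← intervalIntegral.integral_of_le huv.le]
      simp only [hH]
      rw [intervalIntegral.integral_const_mul]
      congr 1
      rw [intervalIntegral.integral_comp_add_mul (fun t => Gp (t + 1) - Gp t) (by positivity),
        smul_eq_mul]
      congr 1
      have hc1 : Continuous fun t : ℝ => Gp (t + 1) :=
        hGc.comp (continuous_id.add continuous_const)
      rw [intervalIntegral.integral_sub (hc1.intervalIntegrable _ _)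
        (hint _ _), intervalIntegral.integral_comp_add_right (fun t => Gp t) 1]
      have h7 := intervalIntegral.integral_interval_sub_interval_comm (hint (T1 + 1) (T2 + 1))
        (hint T1 T2) (hint (T1 + 1) T1)
      rw [h7]
      rw [intervalIntegral.integral_symm T1 (T1 + 1), intervalIntegral.integral_symm T2 (T2 + 1)]
      ring
    have hlow : ∀ x : ℝ, Gp x ≤ ∫ t in x..(x + 1), Gp t := by
      intro x
      have := intervalIntegral.integral_mono_on (by linarith : x ≤ x + 1)
        (intervalIntegrable_const (c := Gp x)) (hint x (x + 1)) (fun t ht => Gmono _ ht.1)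
      simpa using this
    have hupp : ∀ x : ℝ, ∫ t in x..(x + 1), Gp t ≤ Gp x + 1 := by
      intro x
      have := intervalIntegral.integral_mono_on (by linarith : x ≤ x + 1)
        (hint x (x + 1)) (intervalIntegrable_const (c := Gp x + 1)) (fun t ht => by
          have h8 := Gle (2 ^ (m + 1)) ht.1
          have h9 := ht.2
          linarith)
      simpa using this
    rw [e1, ← Gsub _ hT]
    have e2 : (2 : ℝ) ^ m / ((m : ℝ) + 1) * ((2 ^ m)⁻¹ * (Gp T2 - Gp T1)) -
        2 ^ m / ((m : ℝ) + 1) * ((2 ^ m)⁻¹ * ((∫ t in T2..(T2 + 1), Gp t) -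
          ∫ t in T1..(T1 + 1), Gp t)) = 1 / ((m : ℝ) + 1) *
        (((∫ t in T1..(T1 + 1), Gp t) - Gp T1) - ((∫ t in T2..(T2 + 1), Gp t) - Gp T2)) := by
      field_simp
      ring
    rw [e2, norm_mul, Real.norm_of_nonneg (by positivity), Real.norm_eq_abs]
    have h10 : |((∫ t in T1..(T1 + 1), Gp t) - Gp T1) - ((∫ t in T2..(T2 + 1), Gp t) - Gp T2)| ≤ 1 := by
      rw [abs_le]
      have a1 := hlow T1
      have a2 := hlow T2
      have a3 := hupp T1
      have a4 := hupp T2
      constructor <;> linarith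
    calc _ ≤ 1 / ((m : ℝ) + 1) * 1 := mul_le_mul_of_nonneg_left h10 (by positivity)
      _ = _ := mul_one _
  have hfinal := hdiff.add hmain
  rw [zero_add] at hfinal
  refine hfinal.congr fun m => ?_
  ring

end Pool.Agent.V1193.FM
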