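import Pool.Agent.V1193.FM.E

set_option autoImplicit false

/-! The last index. -/

namespace Pool.Agent.V1193.FM

open Finset Filter Topology MeasureTheory

lemma ind_real {S : Set ℝ} (hS : MeasurableSet S) (u v : ℝ) :
    ∫ y in Set.Ioc u v, S.indicator (fun _ => (1 : ℝ)) y =
      (volume.restrict (Set.Ioc u v)).real S := by
  rw [integral_indicator_const _ hS, smul_eq_mul, mul_one]

/-- the points for which `m` is the last index -/
def Last (S : ℕ → Set ℝ) (m : ℕ) : Set ℝ := {y | IsGreatest {k | y ∈ S k} m}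

lemma last_eq (S : ℕ → Set ℝ) (m : ℕ) :
    Last S m = S m \ (S m ∩ ⋃ k : ℕ, S (m + 1 + k)) := by
  ext y
  constructor
  · rintro ⟨h1, h2⟩
    refine ⟨h1, fun h3 => ?_⟩
    obtain ⟨k, hk⟩ := Set.mem_iUnion.1 h3.2
    have := h2 (show (m + 1 + k) ∈ {k | y ∈ S k} from hk)
    omega
  · rintro ⟨h1, h2⟩
    refine ⟨h1, fun k hk => ?_⟩
    by_contra h3
    refine h2 ⟨h1, Set.mem_iUnion.2 ⟨k - (m + 1), ?_⟩⟩
    rw [show m + 1 + (k - (m + 1)) = k by omega]
    exact hk

lemma last_meas {S : ℕ → Set ℝ} (hS : ∀ m, MeasurableSet (S m)) (m : ℕ) :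
    MeasurableSet (Last S m) := by
  rw [last_eq]
  exact (hS m).diff ((hS m).inter (MeasurableSet.iUnion fun k => hS _))

theorem last_law {S : ℕ → Set ℝ} (hS : ∀ m, MeasurableSet (S m)) {u v L K : ℝ} {m0 : ℕ}
    (hK : 0 ≤ K)
    (hq : Tendsto (fun m : ℕ => (2 ^ m / ((m : ℝ) + 1)) *
      ∫ y in Set.Ioc u v, (S m).indicator (fun _ => (1 : ℝ)) y) atTop (𝓝 L))
    (hpair : ∀ m ≥ m0, ∀ n > m, ∫ y in Set.Ioc u v, (S m ∩ S n).indicator (fun _ => (1 : ℝ)) y ≤
      K * (((m : ℝ) + 1) / 2 ^ m) * (((n : ℝ) + 1) / 2 ^ n)) :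
    Tendsto (fun m : ℕ => (2 ^ m / ((m : ℝ) + 1)) *
      ∫ y in Set.Ioc u v, (Last S m).indicator (fun _ => (1 : ℝ)) y) atTop (𝓝 L) := by
  set μ := volume.restrict (Set.Ioc u v) with hμ
  -- the tail of the series
  set R : ℕ → ℝ := fun m => ∑' k : ℕ, ((((m + 1 + k : ℕ) : ℝ)) + 1) / 2 ^ (m + 1 + k) with hR
  have hR0 : Tendsto R atTop (𝓝 0) := by
    have h1 := tendsto_sum_nat_add (fun m : ℕ => ((m : ℝ) + 1) / 2 ^ m)
    have h2 := h1.comp (tendsto_add_atTop_nat 1)
    refine h2.congr fun m => ?_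
    simp only [hR, Function.comp]
    refine tsum_congr fun k => ?_
    rw [show k + (m + 1) = m + 1 + k by omega]
  have hsumR : ∀ m : ℕ, Summable fun k : ℕ => ((((m + 1 + k : ℕ) : ℝ)) + 1) / 2 ^ (m + 1 + k) := by
    intro m
    have := (summable_nat_add_iff (m + 1)).2 summable_base
    refine this.congr fun k => ?_
    rw [show k + (m + 1) = m + 1 + k by omega]
  have hover : ∀ m ≥ m0, μ.real (S m ∩ ⋃ k : ℕ, S (m + 1 + k)) ≤
      K * (((m : ℝ) + 1) / 2 ^ m) * R m := by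
    intro m hm
    have h0 : 0 ≤ K * (((m : ℝ) + 1) / 2 ^ m) := by positivity
    rw [Set.inter_iUnion, Measure.real]
    refine ENNReal.toReal_le_of_le_ofReal (mul_nonneg h0 (tsum_nonneg fun k => by positivity)) ?_
    refine (measure_iUnion_le _).trans ?_
    rw [← tsum_mul_left, ENNReal.ofReal_tsum_of_nonneg (fun k => mul_nonneg h0 (by positivity))
      ((hsumR m).mul_left _)]
    refine ENNReal.tsum_le_tsum fun k => ?_
    have h1 := hpair m hm (m + 1 + k) (by omega)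
    rw [ind_real ((hS m).inter (hS _))] at h1
    rw [← ENNReal.ofReal_toReal (measure_ne_top μ (S m ∩ S (m + 1 + k)))]
    exact ENNReal.ofReal_le_ofReal h1
  have hdiff : Tendsto (fun m : ℕ => (2 ^ m / ((m : ℝ) + 1)) *
      μ.real (S m ∩ ⋃ k : ℕ, S (m + 1 + k))) atTop (𝓝 0) := by
    have h1 : Tendsto (fun m => K * R m) atTop (𝓝 0) := by
      have := hR0.const_mul K
      rwa [mul_zero] at this
    refine squeeze_zero' (Eventually.of_forall fun m => by positivity) ?_ h1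
    filter_upwards [eventually_ge_atTop m0] with m hm
    have h2 := mul_le_mul_of_nonneg_left (hover m hm)
      (show (0 : ℝ) ≤ 2 ^ m / ((m : ℝ) + 1) by positivity)
    refine h2.trans (le_of_eq ?_)
    have h3 : (2 : ℝ) ^ m ≠ 0 := by positivity
    have h4 : (m : ℝ) + 1 ≠ 0 := by positivity
    field_simp
  have hfin := hq.sub hdiff
  rw [sub_zero] at hfin
  refine hfin.congr fun m => ?_
  rw [ind_real (hS m), ind_real (last_meas hS m), ← hμ, ← mul_sub, last_eq,
    measureReal_sdiff (Set.inter_subset_left)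
      ((hS m).inter (MeasurableSet.iUnion fun k => hS _))]

theorem tail_law {S : ℕ → Set ℝ} (hS : ∀ m, MeasurableSet (S m)) {u v L K : ℝ} {m0 : ℕ}
    (hK : 0 ≤ K)
    (hsum : Summable fun m => ∫ y in Set.Ioc u v, (S m).indicator (fun _ => (1 : ℝ)) y)
    (hq : Tendsto (fun m : ℕ => (2 ^ m / ((m : ℝ) + 1)) *
      ∫ y in Set.Ioc u v, (S m).indicator (fun _ => (1 : ℝ)) y) atTop (𝓝 L))
    (hpair : ∀ m ≥ m0, ∀ n > m, ∫ y in Set.Ioc u v, (S m ∩ S n).indicator (fun _ => (1 : ℝ)) y ≤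
      K * (((m : ℝ) + 1) / 2 ^ m) * (((n : ℝ) + 1) / 2 ^ n)) :
    Tendsto (fun M : ℕ => (2 ^ M / ((M : ℝ) + 1)) *
      ∫ y in Set.Ioc u v, ({y | ∃ m, M ≤ m ∧ y ∈ S m}).indicator (fun _ => (1 : ℝ)) y) atTop
        (𝓝 (2 * L)) := by
  have hsub : ∀ m, Last S m ⊆ S m := fun m y hy => hy.1
  have hsum' : Summable fun m => ∫ y in Set.Ioc u v, (Last S m).indicator (fun _ => (1 : ℝ)) y := by
    refine Summable.of_nonneg_of_le (fun m => ?_) (fun m => ?_) hsum
    · rw [ind_real (last_meas hS m)]; exact measureReal_nonneg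
    · rw [ind_real (last_meas hS m), ind_real (hS m)]
      exact measureReal_mono (hsub m)
  have h := expected_gen (last_meas hS) hsum' (last_law hS hK hq hpair)
  refine h.congr fun M => ?_
  congr 1
  refine integral_congr_ae ?_
  filter_upwards [bc hS hsum] with y hy
  have hfs : ({m | M ≤ m ∧ y ∈ S m}).Finite := hy.subset fun m hm => hm.2
  by_cases hex : ∃ m, M ≤ m ∧ y ∈ S m
  · rw [Set.indicator_of_mem (show y ∈ {y | ∃ m, M ≤ m ∧ y ∈ S m} from hex)]
    obtain ⟨m1, hm1⟩ := hex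
    obtain ⟨m, hm, hmax⟩ := hfs.exists_maximal ⟨m1, hm1⟩
    have hset : {m | M ≤ m ∧ y ∈ Last S m} = {m} := by
      ext k
      simp only [Set.mem_ofPred_eq, Set.mem_singleton_iff]
      constructor
      · rintro ⟨h1, h2⟩
        have h3 : m ≤ k := h2.2 hm.2
        have h4 : k ≤ m := by
          rcases le_total k m with h5 | h5
          · exact h5
          · exact hmax (show k ∈ {m | M ≤ m ∧ y ∈ S m} from ⟨h1, h2.1⟩) h5
        omega
      · rintro rfl
        refine ⟨hm.1, hm.2, fun j hj => ?_⟩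
        rcases le_total j k with h5 | h5
        · exact h5
        · exact hmax (show j ∈ {m | M ≤ m ∧ y ∈ S m} from ⟨hm.1.trans h5, hj⟩) h5
    rw [hset, Set.ncard_singleton, Nat.cast_one]
  · rw [Set.indicator_of_notMem (show y ∉ {y | ∃ m, M ≤ m ∧ y ∈ S m} from hex)]
    have hset : {m | M ≤ m ∧ y ∈ Last S m} = ∅ := by
      ext k
      simp only [Set.mem_ofPred_eq, Set.mem_empty_iff_false, iff_false]
      rintro ⟨h1, h2⟩
      exact hex ⟨k, h1, h2.1⟩
    rw [hset, Set.ncard_empty, Nat.cast_zero]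

end Pool.Agent.V1193.FM
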