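import Pool.Agent.V1193.FM.F

set_option autoImplicit false

/-! Pairs of indices for amplitudes and for bases. -/

namespace Pool.Agent.V1193.FM

open Finset Filter Topology MeasureTheory
open Pool.Agent.H305R2 (NN roughPart measurable_NN ff ff_nonneg ff_le_one integrableOn_ff
  mem_Ioc_log)

lemma log_pow_le (m : ℕ) : Real.log ((2 ^ (m + 1) : ℕ) : ℝ) / ((2 ^ (m + 1) : ℕ) : ℝ) ≤
    (((m : ℝ) + 1) / 2 ^ m) / 2 := by
  push_cast
  rw [Real.log_pow, pow_succ, div_div]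
  push_cast
  have h := Real.log_two_lt_d9
  refine div_le_div_of_nonneg_right ?_ (by positivity)
  have : (0 : ℝ) ≤ (m : ℝ) + 1 := by positivity
  nlinarith

lemma log_pow_nonneg (m : ℕ) :
    0 ≤ Real.log ((2 ^ (m + 1) : ℕ) : ℝ) / ((2 ^ (m + 1) : ℕ) : ℝ) := by
  refine div_nonneg (Real.log_nonneg ?_) (by positivity)
  push_cast
  exact one_le_pow₀ (by norm_num)

lemma ind_inter {x y : ℝ} {m n : ℕ} {S T : Set ℝ} {z : ℝ}
    (hS : z ∈ S ↔ (WW (Real.exp x) (Real.exp y) m).Prime)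
    (hT : z ∈ T ↔ (WW (Real.exp x) (Real.exp y) n).Prime)
    (h1 : ∀ k : ℕ, y + 2 ^ m * x ≠ Real.log k) (h2 : ∀ k : ℕ, y + 2 ^ n * x ≠ Real.log k) :
    (S ∩ T).indicator (fun _ => (1 : ℝ)) z =
      g (2 ^ (m + 1)) (y + 2 ^ m * x) * g (2 ^ (n + 1)) (y + 2 ^ n * x) := by
  rw [← ind_eq h1, ← ind_eq h2]
  by_cases a : (WW (Real.exp x) (Real.exp y) m).Prime
  · by_cases b : (WW (Real.exp x) (Real.exp y) n).Prime
    · rw [Set.indicator_of_mem (show z ∈ S ∩ T from ⟨hS.2 a, hT.2 b⟩), if_pos a, if_pos b, one_mul]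
    · rw [Set.indicator_of_notMem (show z ∉ S ∩ T from fun h => b (hT.1 h.2)), if_neg b, mul_zero]
  · rw [Set.indicator_of_notMem (show z ∉ S ∩ T from fun h => a (hS.1 h.1)), if_neg a, zero_mul]

theorem pair_y {x : ℝ} (hx : 0 < x) {u v : ℝ} (huv : u ≤ v) : ∃ K : ℝ, 0 ≤ K ∧ ∃ m0 : ℕ,
    ∀ m ≥ m0, ∀ n > m, ∫ y in Set.Ioc u v,
      ({y : ℝ | (WW (Real.exp x) (Real.exp y) m).Prime} ∩
        {y : ℝ | (WW (Real.exp x) (Real.exp y) n).Prime}).indicator (fun _ => (1 : ℝ)) y ≤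
      K * (((m : ℝ) + 1) / 2 ^ m) * (((n : ℝ) + 1) / 2 ^ n) := by
  obtain ⟨K, hK, hev⟩ := pairg (show 0 < x / 4 by positivity)
  have hev' := tendsto_P.eventually hev
  have h2 : Tendsto (fun m : ℕ => (2 : ℝ) ^ m * (x / 2)) atTop atTop :=
    (tendsto_pow_atTop_atTop_of_one_lt (by norm_num : (1 : ℝ) < 2)).atTop_mul_const (by positivity)
  obtain ⟨m0, hm0⟩ := eventually_atTop.1 (hev'.and (h2.eventually_ge_atTop (2 - u)))
  refine ⟨K * ((v - u) + 3), mul_nonneg hK.le (by linarith), m0, fun m hm n hn => ?_⟩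
  obtain ⟨hp, hlow⟩ := hm0 m hm
  have hmn : (2 : ℝ) ^ m * 2 ≤ 2 ^ n := by
    rw [← pow_succ]
    exact pow_le_pow_right₀ (by norm_num) hn
  have h1 : ∫ y in Set.Ioc u v,
      ({y : ℝ | (WW (Real.exp x) (Real.exp y) m).Prime} ∩
        {y : ℝ | (WW (Real.exp x) (Real.exp y) n).Prime}).indicator (fun _ => (1 : ℝ)) y =
      ∫ t in Set.Ioc (u + 2 ^ m * x) (v + 2 ^ m * x),
        g (2 ^ (m + 1)) t * g (2 ^ (n + 1)) (t + (2 ^ n - 2 ^ m) * x) := by
    have h3 : ∫ y in Set.Ioc u v,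
      ({y : ℝ | (WW (Real.exp x) (Real.exp y) m).Prime} ∩
        {y : ℝ | (WW (Real.exp x) (Real.exp y) n).Prime}).indicator (fun _ => (1 : ℝ)) y =
      ∫ y in Set.Ioc u v, (fun t => g (2 ^ (m + 1)) t * g (2 ^ (n + 1)) (t + (2 ^ n - 2 ^ m) * x))
        (y + 2 ^ m * x) := by
      refine setIntegral_congr_ae measurableSet_Ioc ?_
      filter_upwards [ae_ne_y x m, ae_ne_y x n] with y hy hy' _
      rw [ind_inter Iff.rfl Iff.rfl hy hy']
      congr 2
      ring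
    rw [h3, ← intervalIntegral.integral_of_le huv, ← intervalIntegral.integral_of_le (by linarith),
      intervalIntegral.integral_comp_add_right (fun t => g (2 ^ (m + 1)) t *
        g (2 ^ (n + 1)) (t + (2 ^ n - 2 ^ m) * x)) (2 ^ m * x)]
  rw [h1]
  have hpos : (0 : ℝ) < 2 ^ m := by positivity
  have hposn : (0 : ℝ) < 2 ^ n := by positivity
  have h4 := hp (2 ^ (n + 1)) (Nat.pow_lt_pow_right (by norm_num) (by omega))
    ((2 ^ n - 2 ^ m) * x) (by
      push_cast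
      rw [pow_succ]
      nlinarith) (u + 2 ^ m * x) (v + 2 ^ m * x) (by
      push_cast
      rw [pow_succ]
      linarith) (by linarith)
  refine h4.trans ?_
  have e : v + 2 ^ m * x - (u + 2 ^ m * x) + 3 = (v - u) + 3 := by ring
  rw [e]
  have h5 := log_pow_le m
  have h6 := log_pow_le n
  have h7 := log_pow_nonneg m
  have h8 := log_pow_nonneg n
  have h9 : (0 : ℝ) ≤ ((m : ℝ) + 1) / 2 ^ m := by positivity
  have h10 : (0 : ℝ) ≤ ((n : ℝ) + 1) / 2 ^ n := by positivity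
  have h11 : 0 ≤ K * ((v - u) + 3) := mul_nonneg hK.le (by linarith)
  refine mul_le_mul (mul_le_mul_of_nonneg_left (by linarith) h11) (by linarith) h8
    (mul_nonneg h11 h9)

/-- the phase functions for the bases -/
lemma loc_ph (y : ℝ) {a0 : ℝ} (ha0 : 0 < a0) (a1 : ℝ) (p : ℕ) :
    Pool.Agent.H447R2.ML.Loc a0 a1 (|y| + Real.exp (-y) + Real.exp (-y) / a0) p
      (fun τ => ph (y + p * τ))
      (fun τ => Real.exp (y + p * τ) / (Real.exp (y + p * τ) + 1) * p) := by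
  have hE : 0 ≤ Real.exp (-y) / a0 := by positivity
  have hdec : ∀ t ∈ Set.Icc a0 a1, Real.exp (-(y + p * t)) ≤ Real.exp (-y) := by
    intro t ht
    refine Real.exp_le_exp.2 ?_
    have : 0 ≤ (p : ℝ) * t := mul_nonneg (Nat.cast_nonneg p) (ha0.le.trans ht.1)
    linarith
  constructor
  · intro t ht
    have h1 := ph_ge (y + p * t)
    have h2 := ph_sub (y + p * t)
    have h3 := hdec t ht
    have h4 := abs_le.1 (le_refl |y|)
    rw [abs_le]
    constructor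
    · have := (Real.exp_pos (-y)).le
      linarith [h4.1]
    · linarith [h4.2]
  · intro t _
    have h1 := (((hasDerivAt_id t).const_mul (p : ℝ)).const_add y)
    have h2 := (ph_deriv (y + p * t)).comp t h1
    simpa [Function.comp_def] using h2
  · intro t ht
    have hE0 := Real.exp_pos (y + p * t)
    have e : Real.exp (y + p * t) / (Real.exp (y + p * t) + 1) * p - p =
        -(p / (Real.exp (y + p * t) + 1)) := by
      field_simp
      ring
    rw [e, abs_neg, abs_of_nonneg (by positivity)]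
    have ht0 : 0 < t := lt_of_lt_of_le ha0 ht.1
    have h1 : (p : ℝ) / (Real.exp (y + p * t) + 1) ≤ Real.exp (-y) / a0 := by
      rw [div_le_div_iff₀ (by positivity) ha0]
      have h2 : (p : ℝ) * a0 ≤ Real.exp (p * t) := by
        have h3 := Real.add_one_le_exp ((p : ℝ) * t)
        have h4 : (p : ℝ) * a0 ≤ p * t := mul_le_mul_of_nonneg_left ht.1 (Nat.cast_nonneg p)
        linarith
      have h5 : Real.exp (-y) * (Real.exp (y + p * t) + 1) = Real.exp (p * t) + Real.exp (-y) := by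
        rw [mul_add, ← Real.exp_add, mul_one]
        congr 2
        ring
      rw [h5]
      have := (Real.exp_pos (-y)).le
      linarith
    have h6 := abs_nonneg y
    have h7 := (Real.exp_pos (-y)).le
    linarith

theorem pair_x {y : ℝ} {u v : ℝ} (hu : 0 < u) (huv : u ≤ v) : ∃ K : ℝ, 0 ≤ K ∧ ∃ m0 : ℕ,
    ∀ m ≥ m0, ∀ n > m, ∫ x in Set.Ioc u v,
      ({x : ℝ | (WW (Real.exp x) (Real.exp y) m).Prime} ∩
        {x : ℝ | (WW (Real.exp x) (Real.exp y) n).Prime}).indicator (fun _ => (1 : ℝ)) x ≤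
      K * (((m : ℝ) + 1) / 2 ^ m) * (((n : ℝ) + 1) / 2 ^ n) := by
  set a0 := u / 4 with ha0d
  have ha0 : 0 < a0 := by positivity
  obtain ⟨K, hK, P, hP⟩ := Pool.Agent.H447R2.ML.pair_bound (a0 := a0) (a1 := v)
    (D := |y| + Real.exp (-y) + Real.exp (-y) / a0) (b0 := u / 2) (b1 := v / 2) ha0
    (by positivity) (by rw [ha0d]; linarith) (by linarith)
  have hlog2 : ∀ᶠ q : ℕ in atTop, (Real.log q) ^ 2 ≤ a0 / 128 * q := by
    have h := (Real.isLittleO_pow_log_id_atTop (n := 2)).bound (show 0 < a0 / 128 by positivity)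
    have h' := tendsto_natCast_atTop_atTop (R := ℝ) |>.eventually h
    filter_upwards [h'] with q hq
    simp only [id, norm_pow, Real.norm_eq_abs, sq_abs, Nat.abs_cast] at hq
    exact hq
  obtain ⟨P2, hP2⟩ := eventually_atTop.1 hlog2
  obtain ⟨m0, hm0⟩ := eventually_atTop.1 (tendsto_P.eventually_ge_atTop (max P P2))
  refine ⟨2 * (K * ((v / 2 - u / 2) + 1)), mul_nonneg (by norm_num) (mul_nonneg hK.le (by linarith)),
    m0, fun m hm n hn => ?_⟩
  have hpm := hm0 m hm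
  have hmn : (2 : ℝ) ^ m * 2 ≤ 2 ^ n := by
    rw [← pow_succ]
    exact pow_le_pow_right₀ (by norm_num) hn
  have hpq : 2 ^ (m + 1) < 2 ^ (n + 1) := Nat.pow_lt_pow_right (by norm_num) (by omega)
  have hq2 := hP2 (2 ^ (n + 1)) (by have := le_max_right P P2; omega)
  have hpos : (0 : ℝ) < 2 ^ m := by positivity
  have hposn : (0 : ℝ) < 2 ^ n := by positivity
  -- change of variables
  have h1 : ∫ x in Set.Ioc u v,
      ({x : ℝ | (WW (Real.exp x) (Real.exp y) m).Prime} ∩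
        {x : ℝ | (WW (Real.exp x) (Real.exp y) n).Prime}).indicator (fun _ => (1 : ℝ)) x =
      2 * ∫ τ in Set.Ioc (u / 2) (v / 2),
        ff (2 ^ (m + 1)) (ph (y + ((2 ^ (m + 1) : ℕ) : ℝ) * τ)) *
          ff (2 ^ (n + 1)) (ph (y + ((2 ^ (n + 1) : ℕ) : ℝ) * τ)) := by
    have h3 : ∫ x in Set.Ioc u v,
      ({x : ℝ | (WW (Real.exp x) (Real.exp y) m).Prime} ∩
        {x : ℝ | (WW (Real.exp x) (Real.exp y) n).Prime}).indicator (fun _ => (1 : ℝ)) x =
      ∫ x in Set.Ioc u v, (fun τ => ff (2 ^ (m + 1)) (ph (y + ((2 ^ (m + 1) : ℕ) : ℝ) * τ)) *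
          ff (2 ^ (n + 1)) (ph (y + ((2 ^ (n + 1) : ℕ) : ℝ) * τ))) (x / 2) := by
      refine setIntegral_congr_ae measurableSet_Ioc ?_
      filter_upwards [ae_ne_x y m, ae_ne_x y n] with x hx hx' _
      rw [ind_inter (x := x) (y := y) Iff.rfl Iff.rfl hx hx', g_eq, g_eq]
      congr 3
      · push_cast; rw [pow_succ]; ring
      · push_cast; rw [pow_succ]; ring
    rw [h3, ← intervalIntegral.integral_of_le huv, ← intervalIntegral.integral_of_le (by linarith),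
      intervalIntegral.integral_comp_div (fun τ => ff (2 ^ (m + 1))
        (ph (y + ((2 ^ (m + 1) : ℕ) : ℝ) * τ)) *
          ff (2 ^ (n + 1)) (ph (y + ((2 ^ (n + 1) : ℕ) : ℝ) * τ))) two_ne_zero, smul_eq_mul]
  rw [h1]
  have hgap : 64 / a0 * (Real.log ((2 ^ (n + 1) : ℕ) : ℝ) *
      Real.log (Real.log ((2 ^ (n + 1) : ℕ) : ℝ))) ≤
      ((2 ^ (n + 1) : ℕ) : ℝ) - ((2 ^ (m + 1) : ℕ) : ℝ) := by
    have hl0 : 0 < Real.log ((2 ^ (n + 1) : ℕ) : ℝ) := by
      refine Real.log_pos ?_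
      push_cast
      exact one_lt_pow₀ (by norm_num) (by omega)
    have h7 := Real.log_le_sub_one_of_pos hl0
    have h8 : Real.log ((2 ^ (n + 1) : ℕ) : ℝ) * Real.log (Real.log ((2 ^ (n + 1) : ℕ) : ℝ)) ≤
        (Real.log ((2 ^ (n + 1) : ℕ) : ℝ)) ^ 2 := by
      rw [sq]; exact mul_le_mul_of_nonneg_left (by linarith) hl0.le
    have h9 : 64 / a0 * (Real.log ((2 ^ (n + 1) : ℕ) : ℝ) *
      Real.log (Real.log ((2 ^ (n + 1) : ℕ) : ℝ))) ≤ 64 / a0 * (a0 / 128 * ((2 ^ (n + 1) : ℕ) : ℝ)) :=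
      mul_le_mul_of_nonneg_left (h8.trans hq2) (by positivity)
    have h10 : 64 / a0 * (a0 / 128 * ((2 ^ (n + 1) : ℕ) : ℝ)) = ((2 ^ (n + 1) : ℕ) : ℝ) / 2 := by
      field_simp
      norm_num
    rw [h10] at h9
    push_cast at h9 ⊢
    rw [pow_succ, pow_succ] at *
    linarith
  have h4 := hP (2 ^ (m + 1)) (2 ^ (n + 1)) (by have := le_max_left P P2; omega) hpq _ _ _ _
    (loc_ph y ha0 v (2 ^ (m + 1))) (loc_ph y ha0 v (2 ^ (n + 1))) hgap (u / 2) (v / 2) le_rfl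
    (by linarith) le_rfl
  have h5 := log_pow_le m
  have h6 := log_pow_le n
  have h7 := log_pow_nonneg m
  have h8 := log_pow_nonneg n
  have h9 : (0 : ℝ) ≤ ((m : ℝ) + 1) / 2 ^ m := by positivity
  have h10 : (0 : ℝ) ≤ ((n : ℝ) + 1) / 2 ^ n := by positivity
  have h11 : 0 ≤ K * ((v / 2 - u / 2) + 1) := mul_nonneg hK.le (by linarith)
  have h1p : 1 / ((2 ^ (m + 1) : ℕ) : ℝ) ≤ 1 := by
    rw [div_le_one (by positivity)]
    push_cast
    exact one_le_pow₀ (by norm_num)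
  have h12 : Real.log ((2 ^ (n + 1) : ℕ) : ℝ) /
      (((2 ^ (n + 1) : ℕ) : ℝ) - ((2 ^ (m + 1) : ℕ) : ℝ)) ≤ ((n : ℝ) + 1) / 2 ^ n := by
    have h13 : ((2 ^ (n + 1) : ℕ) : ℝ) / 2 ≤
        ((2 ^ (n + 1) : ℕ) : ℝ) - ((2 ^ (m + 1) : ℕ) : ℝ) := by
      push_cast
      rw [pow_succ, pow_succ]
      linarith
    have h14 : Real.log ((2 ^ (n + 1) : ℕ) : ℝ) /
      (((2 ^ (n + 1) : ℕ) : ℝ) - ((2 ^ (m + 1) : ℕ) : ℝ)) ≤
        Real.log ((2 ^ (n + 1) : ℕ) : ℝ) / (((2 ^ (n + 1) : ℕ) : ℝ) / 2) := by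
      refine div_le_div_of_nonneg_left (Real.log_nonneg ?_) (by positivity) h13
      push_cast
      exact one_le_pow₀ (by norm_num)
    have h15 : Real.log ((2 ^ (n + 1) : ℕ) : ℝ) / (((2 ^ (n + 1) : ℕ) : ℝ) / 2) =
        2 * (Real.log ((2 ^ (n + 1) : ℕ) : ℝ) / ((2 ^ (n + 1) : ℕ) : ℝ)) := by
      field_simp
    linarith
  have h16 : 0 ≤ Real.log ((2 ^ (n + 1) : ℕ) : ℝ) /
      (((2 ^ (n + 1) : ℕ) : ℝ) - ((2 ^ (m + 1) : ℕ) : ℝ)) := by
    refine div_nonneg (Real.log_nonneg ?_) ?_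
    · push_cast
      exact one_le_pow₀ (by norm_num)
    · have : ((2 ^ (m + 1) : ℕ) : ℝ) < ((2 ^ (n + 1) : ℕ) : ℝ) := by exact_mod_cast hpq
      linarith
  have h17 : K * (v / 2 - u / 2 + 1 / ((2 ^ (m + 1) : ℕ) : ℝ)) *
      (Real.log ((2 ^ (m + 1) : ℕ) : ℝ) / ((2 ^ (m + 1) : ℕ) : ℝ)) *
      (Real.log ((2 ^ (n + 1) : ℕ) : ℝ) /
        (((2 ^ (n + 1) : ℕ) : ℝ) - ((2 ^ (m + 1) : ℕ) : ℝ))) ≤
      K * (v / 2 - u / 2 + 1) * (((m : ℝ) + 1) / 2 ^ m) * (((n : ℝ) + 1) / 2 ^ n) := by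
    refine mul_le_mul (mul_le_mul (mul_le_mul_of_nonneg_left (by linarith) hK.le) (by linarith) h7
      h11) h12 h16 (mul_nonneg h11 h9)
  calc _ ≤ 2 * (K * (v / 2 - u / 2 + 1) * (((m : ℝ) + 1) / 2 ^ m) * (((n : ℝ) + 1) / 2 ^ n)) :=
        mul_le_mul_of_nonneg_left (h4.trans h17) (by norm_num)
    _ = _ := by ring

end Pool.Agent.V1193.FM
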