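import Pool.Agent.V1193.FM.G

set_option autoImplicit false

/-! Assembly. -/

namespace Pool.Agent.V1193.FM

open Finset Filter Topology MeasureTheory

/-- the indices with a prime value -/
def Pr (α β : ℝ) : Set ℕ := {m | (WW α β m).Prime}

lemma vol_eq {S : Set ℝ} (hS : MeasurableSet S) (u v : ℝ) :
    ∫ y in Set.Ioc u v, S.indicator (fun _ => (1 : ℝ)) y = volume.real {y ∈ Set.Ioc u v | y ∈ S} := by
  rw [ind_real hS, measureReal_restrict_apply hS]
  congr 1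
  ext y
  exact and_comm

theorem final_gen {S : ℕ → Set ℝ} (hS : ∀ m, MeasurableSet (S m)) {u v L : ℝ}
    (hsum : Summable fun m => ∫ y in Set.Ioc u v, (S m).indicator (fun _ => (1 : ℝ)) y)
    (hq : Tendsto (fun m : ℕ => (2 ^ m / ((m : ℝ) + 1)) *
      ∫ y in Set.Ioc u v, (S m).indicator (fun _ => (1 : ℝ)) y) atTop (𝓝 L))
    (hpair : ∃ K : ℝ, 0 ≤ K ∧ ∃ m0 : ℕ, ∀ m ≥ m0, ∀ n > m,
      ∫ y in Set.Ioc u v, (S m ∩ S n).indicator (fun _ => (1 : ℝ)) y ≤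
      K * (((m : ℝ) + 1) / 2 ^ m) * (((n : ℝ) + 1) / 2 ^ n)) :
    Tendsto (fun m : ℕ => (2 ^ m / ((m : ℝ) + 1)) *
      volume.real {y ∈ Set.Ioc u v | m ∈ {k | y ∈ S k}}) atTop (𝓝 L) ∧
    Tendsto (fun m : ℕ => (2 ^ m / ((m : ℝ) + 1)) *
      volume.real {y ∈ Set.Ioc u v | IsGreatest {k | y ∈ S k} m}) atTop (𝓝 L) ∧
    Tendsto (fun m : ℕ => (2 ^ m / ((m : ℝ) + 1)) *
      volume.real {y ∈ Set.Ioc u v | ∃ k ∈ {k | y ∈ S k}, m ≤ k}) atTop (𝓝 (2 * L)) ∧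
    Tendsto (fun m : ℕ => (2 ^ m / ((m : ℝ) + 1)) *
      ∫ y in Set.Ioc u v, (({k | y ∈ S k} ∩ Set.Ici m).ncard : ℝ)) atTop (𝓝 (2 * L)) := by
  obtain ⟨K, hK, m0, hp⟩ := hpair
  refine ⟨?_, ?_, ?_, ?_⟩
  · refine hq.congr fun m => ?_
    rw [vol_eq (hS m)]
    rfl
  · refine (last_law hS hK hq hp).congr fun m => ?_
    rw [vol_eq (last_meas hS m)]
    rfl
  · refine (tail_law hS hK hsum hq hp).congr fun m => ?_
    have hm : MeasurableSet {y | ∃ k, m ≤ k ∧ y ∈ S k} := by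
      have : {y | ∃ k, m ≤ k ∧ y ∈ S k} = ⋃ k : ℕ, ⋃ _ : m ≤ k, S k := by
        ext y; simp
      rw [this]
      exact MeasurableSet.iUnion fun k => MeasurableSet.iUnion fun _ => hS k
    rw [vol_eq hm]
    congr 2
    ext y
    constructor
    · rintro ⟨h1, k, h2, h3⟩
      exact ⟨h1, k, h3, h2⟩
    · rintro ⟨h1, k, h2, h3⟩
      exact ⟨h1, k, h3, h2⟩
  · refine (expected_gen hS hsum hq).congr fun m => ?_
    have e : ∀ y : ℝ, {k | m ≤ k ∧ y ∈ S k} = {k | y ∈ S k} ∩ Set.Ici m := by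
      intro y
      ext k
      exact and_comm
    simp only [e]

theorem final_y {α : ℝ} (hα : 1 < α) {u v : ℝ} (huv : u < v) :
    Tendsto (fun m : ℕ => (2 ^ m / ((m : ℝ) + 1)) *
      volume.real {y ∈ Set.Ioc u v | m ∈ Pr α (Real.exp y)}) atTop
      (𝓝 (Real.exp Real.eulerMascheroniConstant * Real.log 2 / Real.log α * (v - u))) ∧
    Tendsto (fun m : ℕ => (2 ^ m / ((m : ℝ) + 1)) *
      volume.real {y ∈ Set.Ioc u v | IsGreatest (Pr α (Real.exp y)) m}) atTop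
      (𝓝 (Real.exp Real.eulerMascheroniConstant * Real.log 2 / Real.log α * (v - u))) ∧
    Tendsto (fun m : ℕ => (2 ^ m / ((m : ℝ) + 1)) *
      volume.real {y ∈ Set.Ioc u v | ∃ k ∈ Pr α (Real.exp y), m ≤ k}) atTop
      (𝓝 (2 * (Real.exp Real.eulerMascheroniConstant * Real.log 2 / Real.log α * (v - u)))) ∧
    Tendsto (fun m : ℕ => (2 ^ m / ((m : ℝ) + 1)) *
      ∫ y in Set.Ioc u v, ((Pr α (Real.exp y) ∩ Set.Ici m).ncard : ℝ)) atTop
      (𝓝 (2 * (Real.exp Real.eulerMascheroniConstant * Real.log 2 / Real.log α * (v - u)))) := by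
  obtain ⟨x, hx, rfl⟩ : ∃ x, 0 < x ∧ α = Real.exp x :=
    ⟨Real.log α, Real.log_pos hα, (Real.exp_log (by linarith)).symm⟩
  rw [Real.log_exp]
  have hind : ∀ m : ℕ, ∫ y in Set.Ioc u v,
      ({y : ℝ | (WW (Real.exp x) (Real.exp y) m).Prime}).indicator (fun _ => (1 : ℝ)) y =
      ∫ t in Set.Ioc (u + 2 ^ m * x) (v + 2 ^ m * x), g (2 ^ (m + 1)) t := by
    intro m
    rw [← mu_y x m huv.le, ind_set]
  have h := final_gen (S := fun m => {y : ℝ | (WW (Real.exp x) (Real.exp y) m).Prime})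
    (meas_y x) (u := u) (v := v)
    (L := Real.exp Real.eulerMascheroniConstant * Real.log 2 / x * (v - u))
    ((summable_y hx huv).congr fun m => (hind m).symm)
    ((law hx huv).congr fun m => by rw [hind m]) (pair_y hx huv.le)
  exact h

theorem final_x {β : ℝ} (hβ : 0 < β) {u v : ℝ} (hu : 0 < u) (huv : u < v) :
    Tendsto (fun m : ℕ => (2 ^ m / ((m : ℝ) + 1)) *
      volume.real {x ∈ Set.Ioc u v | m ∈ Pr (Real.exp x) β}) atTop
      (𝓝 (Real.exp Real.eulerMascheroniConstant * Real.log 2 * (Real.log v - Real.log u))) ∧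
    Tendsto (fun m : ℕ => (2 ^ m / ((m : ℝ) + 1)) *
      volume.real {x ∈ Set.Ioc u v | IsGreatest (Pr (Real.exp x) β) m}) atTop
      (𝓝 (Real.exp Real.eulerMascheroniConstant * Real.log 2 * (Real.log v - Real.log u))) ∧
    Tendsto (fun m : ℕ => (2 ^ m / ((m : ℝ) + 1)) *
      volume.real {x ∈ Set.Ioc u v | ∃ k ∈ Pr (Real.exp x) β, m ≤ k}) atTop
      (𝓝 (2 * (Real.exp Real.eulerMascheroniConstant * Real.log 2 *
        (Real.log v - Real.log u)))) ∧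
    Tendsto (fun m : ℕ => (2 ^ m / ((m : ℝ) + 1)) *
      ∫ x in Set.Ioc u v, ((Pr (Real.exp x) β ∩ Set.Ici m).ncard : ℝ)) atTop
      (𝓝 (2 * (Real.exp Real.eulerMascheroniConstant * Real.log 2 *
        (Real.log v - Real.log u)))) := by
  obtain ⟨y, rfl⟩ : ∃ y, β = Real.exp y := ⟨Real.log β, (Real.exp_log hβ).symm⟩
  have hind : ∀ m : ℕ, ∫ x in Set.Ioc u v,
      ({x : ℝ | (WW (Real.exp x) (Real.exp y) m).Prime}).indicator (fun _ => (1 : ℝ)) x =
      ((2 : ℝ) ^ m)⁻¹ * ∫ t in Set.Ioc (y + 2 ^ m * u) (y + 2 ^ m * v), g (2 ^ (m + 1)) t := by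
    intro m
    rw [← mu_x y m huv.le, ind_set]
  have h := final_gen (S := fun m => {x : ℝ | (WW (Real.exp x) (Real.exp y) m).Prime})
    (meas_x y) (u := u) (v := v)
    (L := Real.exp Real.eulerMascheroniConstant * Real.log 2 * (Real.log v - Real.log u))
    ((summable_x (y := y) hu huv.le).congr fun m => (hind m).symm)
    ((law_x (y := y) hu huv).congr fun m => by rw [hind m]) (pair_x hu huv.le)
  exact h

end Pool.Agent.V1193.FM
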